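import Mathlib
import Pool.Agent.H777R2.Top

/-!
# No logarithm of `w - z` on a plane compactum around `z`, and the winding of a simple closed curve
-/

set_option autoImplicit false

open Set Topology Complex Metric

namespace Pool.Agent.H512SP

/-- Borsuk: if `z` lies in a bounded component of the complement of the compactum `K` then `w - z`
has no continuous logarithm on `K` -/
theorem no_log {K : Set ℂ} (hK : IsCompact K) {z : ℂ} (hz : z ∉ K)
    (hb : Bornology.IsBounded (connectedComponentIn Kᶜ z)) {L : ℂ → ℂ} (hL : ContinuousOn L K)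
    (hLe : ∀ w ∈ K, exp (L w) = w - z) : False := by
  classical
  set U := connectedComponentIn Kᶜ z with hU
  have hKo : IsOpen Kᶜ := hK.isClosed.isOpen_compl
  have hUo : IsOpen U := hKo.connectedComponentIn
  have hzU : z ∈ U := mem_connectedComponentIn hz
  have hfr : frontier U ⊆ K := by
    intro x hx
    by_contra hxK
    have hop : IsOpen (connectedComponentIn Kᶜ x) := hKo.connectedComponentIn
    obtain ⟨y, hy1, hy2⟩ := mem_closure_iff.1 hx.1 _ hop (mem_connectedComponentIn hxK)
    have e1 := connectedComponentIn_eq hy1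
    have e2 := connectedComponentIn_eq hy2
    have : x ∈ U := by
      rw [hU, e2, ← e1]
      exact mem_connectedComponentIn hxK
    have h3 := hx.2
    rw [hUo.interior_eq] at h3
    exact h3 this
  obtain ⟨L', hL'⟩ := ContinuousMap.exists_restrict_eq hK.isClosed
    (⟨K.domRestrict L, continuousOn_iff_continuous_domRestrict.1 hL⟩ : C(K, ℂ))
  have hLL : ∀ w ∈ K, L' w = L w := by
    intro w hw
    have := DFunLike.congr_fun hL' ⟨w, hw⟩
    simpa using this
  set F : ℂ → ℂ := fun w => if w ∈ U then exp (L' w) else w - z with hF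
  have hFc : Continuous F := by
    refine Continuous.if ?_ (Complex.continuous_exp.comp L'.continuous) (by fun_prop)
    intro a ha
    have haK : a ∈ K := hfr ha
    show exp (L' a) = a - z
    rw [hLL a haK, hLe a haK]
  have hF0 : ∀ w, F w ≠ 0 := by
    intro w
    by_cases hw : w ∈ U
    · simp only [hF, if_pos hw]
      exact exp_ne_zero _
    · simp only [hF, if_neg hw]
      intro h
      rw [sub_eq_zero] at h
      rw [h] at hw
      exact hw hzU
  obtain ⟨k, hk, hke⟩ := H777R2.exists_log hFc hF0
  obtain ⟨R, hR⟩ := hb.subset_ball 0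
  have hzR : ‖z‖ < R := by
    have := hR hzU
    simpa using this
  refine H777R2.no_log_circle hzR hk.continuousOn ?_
  intro x hx
  rw [hke x]
  have : x ∉ U := by
    intro h
    have := hR h
    simp at this hx
    linarith
  simp only [hF, if_neg this]

/-- the winding of a simple closed curve around a point of its inside does not vanish -/
theorem wind_ne {f : Circle → ℂ} (hf : Continuous f) (hi : Function.Injective f) {z : ℂ}
    (hz : z ∉ range f) (hb : Bornology.IsBounded (connectedComponentIn (range f)ᶜ z))
    {κ : ℝ → ℂ} (hκ : Continuous κ) (hκe : ∀ u, exp (κ u) = f (Circle.exp u) - z)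
    (hper : ∀ u, κ (u + 2 * Real.pi) = κ u) : False := by
  have hemb : IsClosedEmbedding f := hf.isClosedEmbedding hi
  have hK : IsCompact (range f) := isCompact_range hf
  -- descend to the circle
  have hex : ∀ c : Circle, ∃ u ∈ Icc (0:ℝ) (2 * Real.pi), Circle.exp u = c := by
    intro c
    have hpi := Real.pi_pos
    rcases lt_or_ge (arg (c : ℂ)) 0 with h | h
    · refine ⟨arg (c:ℂ) + 2 * Real.pi, ⟨?_, by linarith⟩, ?_⟩
      · linarith [neg_pi_lt_arg (c : ℂ)]
      · rw [Circle.exp_add, Circle.exp_two_pi, mul_one, Circle.exp_arg]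
    · exact ⟨arg (c:ℂ), ⟨h, by linarith [arg_le_pi (c : ℂ)]⟩, Circle.exp_arg c⟩
  choose! u hu1 hu2 using hex
  have hκeq : ∀ a b : ℝ, Circle.exp a = Circle.exp b → κ a = κ b := by
    intro a b hab
    rw [Circle.exp_eq_exp] at hab
    obtain ⟨m, hm⟩ := hab
    have hp : Function.Periodic κ (2 * Real.pi) := hper
    have := hp.int_mul m b
    rw [hm]
    simpa using this
  set k : Circle → ℂ := fun c => κ (u c) with hk
  have hkc : Continuous k := by
    have hq : IsQuotientMap (fun v : Icc (0:ℝ) (2 * Real.pi) => Circle.exp v) := by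
      have hc : Continuous (fun v : Icc (0:ℝ) (2 * Real.pi) => Circle.exp v) := by fun_prop
      refine hc.isClosedMap.isQuotientMap hc ?_
      intro c
      exact ⟨⟨u c, hu1 c⟩, hu2 c⟩
    rw [hq.continuous_iff]
    have : k ∘ (fun v : Icc (0:ℝ) (2 * Real.pi) => Circle.exp v) = fun v : Icc (0:ℝ) (2 * Real.pi) => κ v := by
      funext v
      exact hκeq _ _ (hu2 _)
    rw [this]
    fun_prop
  set e := hemb.isEmbedding.toHomeomorph with he
  classical
  set L : ℂ → ℂ := fun w => if h : w ∈ range f then k (e.symm ⟨w, h⟩) else 0 with hL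
  refine no_log hK hz hb (L := L) ?_ ?_
  · rw [continuousOn_iff_continuous_domRestrict]
    have : (range f).domRestrict L = fun w => k (e.symm w) := by
      funext w
      simp only [Set.domRestrict_apply, hL]
      rw [dif_pos w.2]
    rw [this]
    exact hkc.comp e.symm.continuous
  · intro w hw
    simp only [hL]
    rw [dif_pos hw]
    obtain ⟨c, rfl⟩ := hw
    have : e.symm ⟨f c, mem_range_self c⟩ = c := by
      rw [Homeomorph.symm_apply_eq]
      rfl
    rw [this]
    simp only [hk]
    rw [hκe, hu2]

end Pool.Agent.H512SP
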