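import Mathlib
import Pool.Agent.N491.HP.Jan

/-!
# If the span of a closed curve is small then the curve is swept by short chords
-/

set_option autoImplicit false

open Set Topology Metric

namespace Pool.Agent.H512SP

/-- the clamped angle -/
noncomputable def vv (ρ : ℝ) : ℝ := 2 * Real.pi * max 0 (min 1 (ρ - 1))

theorem vv_cont : Continuous vv := by unfold vv; fun_prop

theorem vv_le {ρ : ℝ} (h : ρ ≤ 1) : vv ρ = 0 := by
  unfold vv
  rw [max_eq_left ((min_le_right _ _).trans (by linarith)), mul_zero]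

theorem vv_ge {ρ : ℝ} (h : 2 ≤ ρ) : vv ρ = 2 * Real.pi := by
  unfold vv
  rw [min_eq_left (by linarith), max_eq_right zero_le_one, mul_one]

noncomputable def ca (w : ℂ) : Circle := Circle.exp (Complex.arg w)

theorem coe_ca {w : ℂ} (hw : w ≠ 0) : (ca w : ℂ) = w / ‖w‖ := by
  have h := Complex.norm_mul_exp_arg_mul_I w
  have h0 : (‖w‖ : ℂ) ≠ 0 := by
    simpa using hw
  unfold ca
  rw [Circle.coe_exp, eq_div_iff h0, mul_comm, h]

theorem ca_cont : ContinuousOn ca {0}ᶜ := by
  have hind : Topology.IsInducing (fun c : Circle => (c : ℂ)) := Topology.IsInducing.subtypeVal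
  rw [hind.continuousOn_iff]
  have h1 : ContinuousOn (fun w : ℂ => w / (‖w‖ : ℂ)) {0}ᶜ := by
    refine ContinuousOn.div (by fun_prop) (by fun_prop) ?_
    intro w hw
    simpa using hw
  refine h1.congr ?_
  intro w hw
  exact coe_ca hw

theorem ca_polar {ρ θ : ℝ} (hρ : 0 < ρ) : ca (ρ * Complex.exp (θ * Complex.I)) = Circle.exp θ := by
  apply Circle.ext
  have h0 : (ρ : ℂ) ≠ 0 := by exact_mod_cast hρ.ne'
  rw [coe_ca (mul_ne_zero h0 (Complex.exp_ne_zero _)), Circle.coe_exp, norm_mul,
    Complex.norm_exp_ofReal_mul_I, Complex.norm_real, Real.norm_eq_abs, abs_of_pos hρ]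
  push_cast
  field_simp

theorem norm_polar {ρ θ : ℝ} (hρ : 0 ≤ ρ) : ‖(ρ * Complex.exp (θ * Complex.I) : ℂ)‖ = ρ := by
  rw [norm_mul, Complex.norm_exp_ofReal_mul_I, Complex.norm_real, Real.norm_eq_abs,
    abs_of_nonneg hρ, mul_one]

open N491.HP in
/-- every spiral from the origin outwards meets the separator -/
theorem meet {C : Set ℂ} (hC : Sep C 0 3) (hC2 : ∀ w ∈ C, 1 ≤ ‖w‖ ∧ ‖w‖ ≤ 2) {θ : ℝ → ℝ}
    (hθ : Continuous θ) : ∃ τ : ℝ, 1 ≤ τ ∧ τ ≤ 2 ∧
      (τ * Complex.exp (θ τ * Complex.I) : ℂ) ∈ C := by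
  set g : ℝ → ℂ := fun τ => ((min τ 3 : ℝ) : ℂ) *
    Complex.exp (((θ τ * max 0 (min 1 (4 - τ)) : ℝ) : ℂ) * Complex.I) with hg
  have hgc : Continuous g := by
    refine Continuous.mul (Complex.continuous_ofReal.comp (by fun_prop))
      (Complex.continuous_exp.comp (Continuous.mul (Complex.continuous_ofReal.comp (by fun_prop))
        continuous_const))
  obtain ⟨w, ⟨τ, hτ, rfl⟩, hwC⟩ := hC (g '' Icc 0 4) (isPreconnected_Icc.image g hgc.continuousOn)
    ⟨0, by norm_num, by simp [hg]⟩ ⟨4, by norm_num, by simp [hg]; norm_num⟩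
  have h1 := hC2 _ hwC
  have hn : ‖g τ‖ = min τ 3 := by
    simp only [hg]
    exact norm_polar (le_min hτ.1 (by norm_num))
  rw [hn] at h1
  have h2 : τ ≤ 2 := by
    by_contra h
    have : (2:ℝ) < min τ 3 := lt_min (by linarith) (by norm_num)
    linarith [h1.2]
  have h3 : min τ 3 = τ := min_eq_left (by linarith)
  rw [h3] at h1
  refine ⟨τ, h1.1, h2, ?_⟩
  have h4 : max 0 (min 1 (4 - τ)) = 1 := by
    rw [min_eq_left (by linarith), max_eq_right zero_le_one]
  have h5 : g τ = τ * Complex.exp (θ τ * Complex.I) := by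
    simp only [hg]
    rw [h3, h4, mul_one]
  rwa [h5] at hwC

open N491.HP in
theorem sweep {α : Type*} [MetricSpace α] {f : Circle → α} (hf : Continuous f) {r : ℝ} (hr : 0 < r)
    (hno : ∀ Z : Set (α × α), Z ⊆ range f ×ˢ range f → IsConnected Z → IsCompact Z →
      Prod.fst '' Z = Prod.snd '' Z → (∀ p ∈ Z, r ≤ dist p.1 p.2) → False) :
    ∃ P Q : ℝ → ℝ, Continuous P ∧ Continuous Q ∧ Q 0 = P 0 ∧ Q 1 = P 1 + 2 * Real.pi ∧
      ∀ t, dist (f (Circle.exp (P t))) (f (Circle.exp (Q t))) < r := by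
  set H : ℂ → α × α := fun w => (f (ca w), f (ca w * Circle.exp (vv ‖w‖))) with hH
  have hHc : ContinuousOn H {0}ᶜ := by
    have h1 : ContinuousOn (fun w : ℂ => ca w * Circle.exp (vv ‖w‖)) {0}ᶜ := by
      refine ca_cont.mul (Continuous.continuousOn ?_)
      exact Circle.exp.continuous.comp (vv_cont.comp continuous_norm)
    exact (hf.comp_continuousOn ca_cont).prodMk (hf.comp_continuousOn h1)
  have hdc : ContinuousOn (fun w => dist (H w).1 (H w).2) {0}ᶜ :=
    continuous_dist.comp_continuousOn hHc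
  set A : Set ℂ := {w | 1 ≤ ‖w‖ ∧ ‖w‖ ≤ 2} with hA
  have hAc : IsClosed A := by
    have : A = {w : ℂ | 1 ≤ ‖w‖} ∩ {w : ℂ | ‖w‖ ≤ 2} := by ext; simp [hA]
    rw [this]
    exact (isClosed_le continuous_const continuous_norm).inter
      (isClosed_le continuous_norm continuous_const)
  have hA0 : A ⊆ {0}ᶜ := by
    intro w hw h
    rw [mem_singleton_iff] at h
    rw [h] at hw
    have := hw.1
    simp at this
    linarith
  set K : Set ℂ := A ∩ (fun w => dist (H w).1 (H w).2) ⁻¹' Ici r with hK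
  have hKc : IsClosed K := (hdc.mono hA0).preimage_isClosed_of_isClosed hAc isClosed_Ici
  have hKb : IsCompact K := by
    refine Metric.isCompact_of_isClosed_isBounded hKc ?_
    refine (Metric.isBounded_closedBall (x := (0:ℂ)) (r := 2)).subset ?_
    intro w hw
    simpa using hw.1.2
  have hK0 : (0:ℂ) ∉ K := fun h => hA0 h.1 rfl
  have hK3 : (3:ℂ) ∉ K := by
    intro h
    have := h.1.2
    simp at this
    linarith
  by_cases hs : Sep K 0 3
  · exfalso
    obtain ⟨C, hCK, hCc, hCp, hCs⟩ := janis hKc hK0 hK3 hs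
    have hC2 : ∀ w ∈ C, 1 ≤ ‖w‖ ∧ ‖w‖ ≤ 2 := fun w hw => (hCK hw).1
    have hCH : ContinuousOn H C := hHc.mono fun w hw => hA0 (hC2 w hw)
    have hCcomp : IsCompact C := hKb.of_isClosed_subset hCc hCK
    have hsub : H '' C ⊆ range f ×ˢ range f := by
      rintro _ ⟨w, -, rfl⟩
      exact ⟨mem_range_self _, mem_range_self _⟩
    have hfst : range f ⊆ Prod.fst '' (H '' C) := by
      rintro _ ⟨c, rfl⟩
      obtain ⟨τ, h1, h2, h3⟩ := meet hCs hC2 (θ := fun _ => Complex.arg c) continuous_const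
      refine ⟨_, ⟨_, h3, rfl⟩, ?_⟩
      simp only [hH]
      rw [ca_polar (by linarith), Circle.exp_arg]
    have hsnd : range f ⊆ Prod.snd '' (H '' C) := by
      rintro _ ⟨c, rfl⟩
      obtain ⟨τ, h1, h2, h3⟩ := meet hCs hC2 (θ := fun τ => Complex.arg c - vv τ)
        (by have := vv_cont; fun_prop)
      refine ⟨_, ⟨_, h3, rfl⟩, ?_⟩
      simp only [hH]
      rw [ca_polar (by linarith), norm_polar (by linarith), ← Circle.exp_add, sub_add_cancel,
        Circle.exp_arg]
    have hf1 : Prod.fst '' (H '' C) = range f := Subset.antisymm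
      (by rintro _ ⟨p, hp, rfl⟩; exact (hsub hp).1) hfst
    have hf2 : Prod.snd '' (H '' C) = range f := Subset.antisymm
      (by rintro _ ⟨p, hp, rfl⟩; exact (hsub hp).2) hsnd
    refine hno (H '' C) hsub ⟨?_, hCp.image H hCH⟩ (hCcomp.image_of_continuousOn hCH)
      (hf1.trans hf2.symm) ?_
    · obtain ⟨τ, -, -, h3⟩ := meet hCs hC2 (θ := fun _ => 0) continuous_const
      exact ⟨_, _, h3, rfl⟩
    · rintro _ ⟨w, hw, rfl⟩
      exact (hCK hw).2
  · unfold N491.HP.Sep at hs
    push Not at hs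
    obtain ⟨D, hD, h0D, h3D, hDK⟩ := hs
    have hDK' : D ⊆ Kᶜ := by
      intro w hw hwK
      have : w ∈ D ∩ K := ⟨hw, hwK⟩
      rw [hDK] at this
      exact this
    set U := connectedComponentIn Kᶜ (0:ℂ) with hU
    have hUo : IsOpen U := hKc.isOpen_compl.connectedComponentIn
    have h0U : (0:ℂ) ∈ U := mem_connectedComponentIn hK0
    have h3U : (3:ℂ) ∈ U := hD.subset_connectedComponentIn h0D hDK' h3D
    have hUc : IsConnected U := ⟨⟨0, h0U⟩, isPreconnected_connectedComponentIn⟩
    obtain ⟨γ, hγ⟩ := (hUo.isConnected_iff_isPathConnected.1 hUc).joinedIn 0 h0U 3 h3U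
    set g : ℝ → ℂ := fun t => γ.extend t with hg
    have hgc : Continuous g := γ.extend.continuous
    have hg0 : g 0 = 0 := γ.extend_zero
    have hg1 : g 1 = 3 := γ.extend_one
    have hgK : ∀ t, g t ∉ K := by
      intro t
      have : g t ∈ U := hγ _
      exact connectedComponentIn_subset _ _ this
    have hSc : IsCompact (Icc (0:ℝ) 1 ∩ {t | ‖g t‖ ≤ 1}) :=
      isCompact_Icc.inter_right (isClosed_le (by fun_prop) continuous_const)
    obtain ⟨t0, ht0, hmax⟩ := hSc.exists_isGreatest ⟨0, by simp, by simp [hg0]⟩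
    have ht01 : t0 < 1 := by
      rcases lt_or_eq_of_le ht0.1.2 with h | h
      · exact h
      · exfalso
        have := ht0.2
        rw [h, mem_ofPred_eq, hg1] at this
        norm_num at this
    have hlt : ∀ t, t0 < t → t ≤ 1 → 1 < ‖g t‖ := by
      intro t h1 h2
      by_contra h
      have := hmax ⟨⟨ht0.1.1.trans h1.le, h2⟩, not_lt.1 h⟩
      linarith
    have ht0n : ‖g t0‖ = 1 := by
      by_contra hne
      have hlt0 : ‖g t0‖ < 1 := lt_of_le_of_ne ht0.2 hne
      obtain ⟨t1, ht1, h1⟩ := intermediate_value_Icc ht01.le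
        (f := fun t => ‖g t‖) (by fun_prop) (show (1:ℝ) ∈ Icc ‖g t0‖ ‖g 1‖ by
          rw [hg1]; constructor
          · exact hlt0.le
          · norm_num)
      rcases lt_or_eq_of_le ht1.1 with h | h
      · have := hlt t1 h ht1.2
        simp only at h1
        linarith
      · simp only at h1
        rw [h] at hne
        exact hne h1
    set q : ℝ → ℝ := fun t => t0 + (1 - t0) * max 0 (min 1 t) with hq
    have hqc : Continuous q := by fun_prop
    have hq0 : q 0 = t0 := by simp [hq]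
    have hq1 : q 1 = 1 := by simp [hq]
    have hqm : ∀ t, t0 ≤ q t ∧ q t ≤ 1 := by
      intro t
      have h1 : 0 ≤ max 0 (min 1 t) := le_max_left _ _
      have h2 : max 0 (min 1 t) ≤ 1 := max_le zero_le_one (min_le_left _ _)
      constructor
      · simp only [hq]
        nlinarith
      · simp only [hq]
        nlinarith
    have hge : ∀ t, 1 ≤ ‖g (q t)‖ := by
      intro t
      rcases lt_or_eq_of_le (hqm t).1 with h | h
      · exact (hlt _ h (hqm t).2).le
      · rw [← h, ht0n]
    obtain ⟨L, hL, hLe⟩ := H777R2.exists_log (X := ℝ) (g := fun t => g (q t)) (by fun_prop)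
      (fun t h => by
        have := hge t
        rw [h] at this
        simp at this
        linarith)
    refine ⟨fun t => (L t).im, fun t => (L t).im + vv ‖g (q t)‖, by fun_prop, ?_, ?_, ?_, ?_⟩
    · have := vv_cont
      fun_prop
    · simp only
      rw [hq0, ht0n, vv_le le_rfl, add_zero]
    · simp only
      rw [hq1, hg1, vv_ge (by norm_num)]
    · intro t
      simp only
      have hge' := hge t
      have hca : ca (g (q t)) = Circle.exp (L t).im := by
        rw [← hLe t]
        have e2 : Complex.exp (L t) = ((Real.exp (L t).re : ℝ) : ℂ) *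
            Complex.exp ((L t).im * Complex.I) := by
          rw [Complex.ofReal_exp, ← Complex.exp_add, Complex.re_add_im]
        rw [e2]
        exact ca_polar (Real.exp_pos _)
      rcases le_or_gt ‖g (q t)‖ 2 with h | h
      · have hnK := hgK (q t)
        have h2 : ¬ r ≤ dist (H (g (q t))).1 (H (g (q t))).2 := fun h3 => hnK ⟨⟨hge', h⟩, h3⟩
        simp only [hH, hca] at h2
        rw [Circle.exp_add]
        exact not_le.1 h2
      · rw [vv_ge h.le, Circle.exp_add, Circle.exp_two_pi, mul_one, dist_self]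
        exact hr

end Pool.Agent.H512SP
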