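import Mathlib
import Pool.Agent.H512SP.Sweep

/-!
# Polar coordinates, outward paths and logarithms along a path
-/

set_option autoImplicit false

open Set Topology Metric Complex

namespace Pool.Agent.H512SP

/-- periodic functions of the argument are continuous away from the origin -/
theorem per_eq {β : Type*} {u : ℝ × ℝ → β} (hper : ∀ X t, u (X + 2 * Real.pi, t) = u (X, t))
    {a b t : ℝ} (h : Circle.exp a = Circle.exp b) : u (a, t) = u (b, t) := by
  rw [Circle.exp_eq_exp] at h
  obtain ⟨m, hm⟩ := h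
  have hp : Function.Periodic (fun X => u (X, t)) (2 * Real.pi) := fun X => hper X t
  have := hp.int_mul m b
  rw [hm]
  simpa using this

theorem arg_neg_exp {v : ℂ} (hv : v ≠ 0) : Circle.exp (arg v) = Circle.exp (arg (-v) + Real.pi) := by
  have h1 := coe_ca hv
  have h2 := coe_ca (neg_ne_zero.2 hv)
  unfold ca at h1 h2
  apply Circle.ext
  rw [Circle.exp_add, Circle.coe_mul, h1, h2, norm_neg, Circle.coe_exp, exp_pi_mul_I]
  ring

theorem per_cont {β : Type*} [TopologicalSpace β] {u : ℝ × ℝ → β} (hu : Continuous u)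
    (hper : ∀ X t, u (X + 2 * Real.pi, t) = u (X, t)) {κ : ℂ → ℝ} (hκ : Continuous κ) :
    ContinuousOn (fun v => u (arg v, κ v)) {0}ᶜ := by
  intro v hv
  apply ContinuousAt.continuousWithinAt
  have hv0 : v ≠ 0 := hv
  rcases Complex.mem_slitPlane_or_neg_mem_slitPlane hv0 with h | h
  · exact ContinuousAt.comp (g := u) hu.continuousAt ((continuousAt_arg h).prodMk hκ.continuousAt)
  · have h1 : ContinuousAt (fun v => u (arg (-v) + Real.pi, κ v)) v := by
      refine ContinuousAt.comp (g := u) hu.continuousAt (ContinuousAt.prodMk ?_ hκ.continuousAt)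
      refine ContinuousAt.add ?_ continuousAt_const
      exact ContinuousAt.comp (g := arg) (continuousAt_arg h) continuous_neg.continuousAt
    refine h1.congr ?_
    filter_upwards [isOpen_compl_singleton.mem_nhds hv] with w hw
    exact (per_eq hper (arg_neg_exp hw)).symm

theorem polar_exp {ρ θ : ℝ} (hρ : 0 < ρ) :
    Circle.exp (arg (ρ * exp (θ * I))) = Circle.exp θ := ca_polar hρ

/-- the radius preserving map given by a degree one map of the circle -/
noncomputable def hm (X : ℝ → ℝ) (v : ℂ) : ℂ := (‖v‖ : ℂ) * exp (X (arg v) * I)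

theorem norm_hm (X : ℝ → ℝ) (v : ℂ) : ‖hm X v‖ = ‖v‖ := by
  unfold hm
  exact norm_polar (norm_nonneg v)

theorem hm_cont {X : ℝ → ℝ} (hX : Continuous X) {d : ℤ}
    (hd : ∀ s, X (s + 2 * Real.pi) = X s + 2 * Real.pi * d) : Continuous (hm X) := by
  rw [continuous_iff_continuousAt]
  intro v
  by_cases hv : v = 0
  · subst hv
    unfold ContinuousAt
    have h0 : hm X 0 = 0 := by simp [hm]
    rw [h0, tendsto_zero_iff_norm_tendsto_zero]
    simp only [norm_hm]
    have : Continuous (fun v : ℂ => ‖v‖) := continuous_norm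
    simpa using this.tendsto 0
  · have h1 := per_cont (u := fun p => (p.2 : ℂ) * exp (X p.1 * I)) (by fun_prop)
      (by
        intro Y t
        simp only
        rw [hd]
        have e : (((X Y + 2 * Real.pi * d : ℝ) : ℂ)) * I = (X Y : ℂ) * I + d * (2 * Real.pi * I) := by
          push_cast
          ring
        rw [e, exp_add, exp_int_mul_two_pi_mul_I, mul_one]) (κ := fun v : ℂ => ‖v‖) continuous_norm
    exact h1.continuousAt (isOpen_compl_singleton.mem_nhds hv)

/-- from any point one reaches `3` going outwards (or inwards if the radius exceeds three) -/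
theorem out_path (v : ℂ) : ∃ D : Set ℂ, IsPreconnected D ∧ v ∈ D ∧ 3 ∈ D ∧
    ∀ w ∈ D, w = v ∨ (min ‖v‖ 3 ≤ ‖w‖ ∧ (‖v‖ < 3 → ‖v‖ < ‖w‖)) := by
  set g : ℝ → ℂ := fun τ => (((1 - τ) * ‖v‖ + 3 * τ : ℝ) : ℂ) *
    exp ((((1 - τ) * arg v : ℝ) : ℂ) * I) with hg
  have hgc : Continuous g := by
    refine Continuous.mul (Complex.continuous_ofReal.comp (by fun_prop))
      (Complex.continuous_exp.comp (Continuous.mul (Complex.continuous_ofReal.comp (by fun_prop))
        continuous_const))
  have hg0 : g 0 = v := by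
    simp only [hg]
    simp [norm_mul_exp_arg_mul_I]
  have hg1 : g 1 = 3 := by
    simp [hg]
  refine ⟨g '' Icc 0 1, isPreconnected_Icc.image g hgc.continuousOn, ⟨0, by simp, hg0⟩,
    ⟨1, by simp, hg1⟩, ?_⟩
  rintro _ ⟨τ, hτ, rfl⟩
  have hn : ‖g τ‖ = (1 - τ) * ‖v‖ + 3 * τ := by
    simp only [hg]
    apply norm_polar
    have := norm_nonneg v
    nlinarith [hτ.1, hτ.2]
  rcases eq_or_lt_of_le hτ.1 with h | h
  · left
    rw [← h, hg0]
  · right
    rw [hn]
    constructor
    · have h1 : min ‖v‖ 3 ≤ ‖v‖ := min_le_left _ _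
      have h2 : min ‖v‖ 3 ≤ 3 := min_le_right _ _
      nlinarith [hτ.1, hτ.2]
    · intro h3
      nlinarith [hτ.2]

/-- a set which does not separate zero from three carries a logarithm of the coordinate -/
theorem has_log {K : Set ℂ} (hK : ∀ w ∈ K, ‖w‖ ≤ 2) {γ : ℝ → ℂ} (hγ : Continuous γ) (h0 : γ 0 = 0)
    (h1 : γ 1 = 3) (hγK : ∀ t, γ t ∉ K) :
    ∃ l : ℂ → ℂ, ContinuousOn l K ∧ ∀ w ∈ K, exp (l w) = w := by
  classical
  let H : C(unitInterval × K, {z : ℂ // z ≠ 0}) :=
    ⟨fun p => ⟨(p.2 : ℂ) - γ (1 - (p.1 : ℝ)), by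
      intro h
      rw [sub_eq_zero] at h
      exact hγK _ (h ▸ p.2.2)⟩, by
      refine Continuous.subtype_mk ?_ _
      fun_prop⟩
  have hslit : ∀ w : K, (3 - (w : ℂ)) ∈ slitPlane := by
    intro w
    left
    have h2 := (re_le_norm (w : ℂ)).trans (hK w w.2)
    simp
    linarith
  let f : C(K, ℂ) := ⟨fun w => log (3 - (w : ℂ)) + Real.pi * I, by
    refine Continuous.add ?_ continuous_const
    exact Continuous.clog (by fun_prop) hslit⟩
  have hH0 : ∀ a, H (0, a) = (fun z : ℂ ↦ (⟨_, z.exp_ne_zero⟩ : {z : ℂ // z ≠ 0})) (f a) := by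
    intro a
    apply Subtype.ext
    show (a : ℂ) - γ (1 - ((0 : unitInterval) : ℝ)) = exp (log (3 - (a : ℂ)) + Real.pi * I)
    rw [exp_add, exp_pi_mul_I, exp_log (slitPlane_ne_zero (hslit a))]
    simp [h1]
  set Λ := isCoveringMap_exp.liftHomotopy H f hH0 with hΛ
  have hΛe : ∀ p, exp (Λ p) = (p.2 : ℂ) - γ (1 - (p.1 : ℝ)) := by
    intro p
    have := congrFun (isCoveringMap_exp.liftHomotopy_lifts H f hH0) p
    exact congrArg Subtype.val this
  refine ⟨fun w => if h : w ∈ K then Λ (1, ⟨w, h⟩) else 0, ?_, ?_⟩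
  · rw [continuousOn_iff_continuous_domRestrict]
    have : K.domRestrict (fun w => if h : w ∈ K then Λ (1, ⟨w, h⟩) else 0) = fun w => Λ (1, w) := by
      funext w
      simp only [Set.domRestrict_apply]
      rw [dif_pos w.2]
    rw [this]
    fun_prop
  · intro w hw
    simp only
    rw [dif_pos hw, hΛe]
    simp [h0]

end Pool.Agent.H512SP
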