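import Mathlib
import Pool.Agent.H512SP.Pol
import Pool.Agent.H512SP.Log

/-!
# Two degree one reparametrisations meet a circular level set at the same time
-/

set_option autoImplicit false

open Set Topology Metric Complex

namespace Pool.Agent.H512SP

theorem path_of_not_sep {K : Set ℂ} (hK : IsClosed K) (h0 : (0:ℂ) ∉ K)
    (hs : ¬ N491.HP.Sep K 0 3) :
    ∃ γ : ℝ → ℂ, Continuous γ ∧ γ 0 = 0 ∧ γ 1 = 3 ∧ ∀ t, γ t ∉ K := by
  unfold N491.HP.Sep at hs
  push Not at hs
  obtain ⟨D, hD, h0D, h3D, hDK⟩ := hs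
  have hDK' : D ⊆ Kᶜ := by
    intro w hw hwK
    have : w ∈ D ∩ K := ⟨hw, hwK⟩
    rw [hDK] at this
    exact this
  set U := connectedComponentIn Kᶜ (0:ℂ) with hU
  have hUo : IsOpen U := hK.isOpen_compl.connectedComponentIn
  have h0U : (0:ℂ) ∈ U := mem_connectedComponentIn h0
  have h3U : (3:ℂ) ∈ U := hD.subset_connectedComponentIn h0D hDK' h3D
  have hUc : IsConnected U := ⟨⟨0, h0U⟩, isPreconnected_connectedComponentIn⟩
  obtain ⟨γ, hγ⟩ := (hUo.isConnected_iff_isPathConnected.1 hUc).joinedIn 0 h0U 3 h3U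
  refine ⟨fun t => γ.extend t, γ.extend.continuous, γ.extend_zero, γ.extend_one, ?_⟩
  intro t
  have : γ.extend t ∈ U := hγ _
  exact connectedComponentIn_subset _ _ this

/-- irreducible separators of zero and three in the annulus -/
structure Irr (L : Set ℂ) : Prop where
  cl : IsClosed L
  rng : ∀ w ∈ L, 1 ≤ ‖w‖ ∧ ‖w‖ ≤ 2
  sep : N491.HP.Sep L 0 3
  irr : ∀ L' ⊆ L, IsClosed L' → N491.HP.Sep L' 0 3 → L' = L

theorem exists_irr {A : Set ℂ} (hA : IsClosed A) (hr : ∀ w ∈ A, 1 ≤ ‖w‖ ∧ ‖w‖ ≤ 2)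
    (hs : N491.HP.Sep A 0 3) : ∃ L ⊆ A, Irr L := by
  have h0A : (0:ℂ) ∉ A := by
    intro h
    have := (hr _ h).1
    simp at this
    linarith
  have h3A : (3:ℂ) ∉ A := by
    intro h
    have := (hr _ h).2
    simp at this
    linarith
  set U := connectedComponentIn Aᶜ (0:ℂ) with hU
  have hUo : IsOpen U := hA.isOpen_compl.connectedComponentIn
  have hUc : IsPreconnected U := isPreconnected_connectedComponentIn
  have h0U : (0:ℂ) ∈ U := mem_connectedComponentIn h0A
  have h3U : (3:ℂ) ∉ closure U := by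
    intro h
    have hop : IsOpen (connectedComponentIn Aᶜ (3:ℂ)) := hA.isOpen_compl.connectedComponentIn
    obtain ⟨p, hp1, hp2⟩ := mem_closure_iff.1 h _ hop (mem_connectedComponentIn h3A)
    have e1 := connectedComponentIn_eq hp1
    have e2 := connectedComponentIn_eq hp2
    have hyU : (3:ℂ) ∈ U := by
      rw [hU, e2, ← e1]
      exact mem_connectedComponentIn h3A
    obtain ⟨q, hq1, hq2⟩ := hs U hUc h0U hyU
    exact connectedComponentIn_subset _ _ hq1 hq2
  set V := connectedComponentIn (closure U)ᶜ (3:ℂ) with hV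
  have hVo : IsOpen V := isClosed_closure.isOpen_compl.connectedComponentIn
  have hVc : IsPreconnected V := isPreconnected_connectedComponentIn
  have h3V : (3:ℂ) ∈ V := mem_connectedComponentIn h3U
  have hVU : ∀ w ∈ V, w ∉ closure U := fun w hw => connectedComponentIn_subset _ _ hw
  have hLU : frontier V ⊆ closure U := by
    have := N491.HP.frontier_comp (O := (closure U)ᶜ) isClosed_closure.isOpen_compl (b := (3:ℂ))
    rw [compl_compl] at this
    exact this
  have hUV : ∀ w ∈ U, w ∉ closure V := by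
    intro w hw hwV
    obtain ⟨p, hp1, hp2⟩ := mem_closure_iff.1 hwV _ hUo hw
    exact hVU p hp2 (subset_closure hp1)
  have hLA : frontier V ⊆ A := by
    intro w hw
    have h1 : w ∈ frontier U := by
      refine ⟨hLU hw, ?_⟩
      rw [hUo.interior_eq]
      intro h
      exact hUV w h hw.1
    have := N491.HP.frontier_comp (O := Aᶜ) hA.isOpen_compl (b := (0:ℂ)) h1
    simpa using this
  refine ⟨frontier V, hLA, isClosed_frontier, fun w hw => hr w (hLA hw), ?_, ?_⟩
  · intro D hD h0 h3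
    exact N491.HP.meets_frontier hD ⟨3, h3, h3V⟩ ⟨0, h0, fun h => hVU 0 h (subset_closure h0U)⟩
  · intro L' hL' hL'c hL's
    apply Subset.antisymm hL'
    intro w hw
    by_contra hwL
    obtain ⟨ε, hε, hball⟩ := Metric.isOpen_iff.1 hL'c.isOpen_compl w hwL
    have hB : IsPreconnected (ball w ε) := (convex_ball w ε).isPreconnected
    obtain ⟨p, hp1, hp2⟩ := mem_closure_iff.1 (hLU hw) _ isOpen_ball (mem_ball_self hε)
    obtain ⟨q, hq1, hq2⟩ := mem_closure_iff.1 hw.1 _ isOpen_ball (mem_ball_self hε)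
    have hD1 : IsPreconnected (U ∪ ball w ε) := IsPreconnected.union p hp2 hp1 hUc hB
    have hD2 : IsPreconnected (U ∪ ball w ε ∪ V) :=
      IsPreconnected.union q (Or.inr hq1) hq2 hD1 hVc
    obtain ⟨x, hx1, hx2⟩ := hL's _ hD2 (Or.inl (Or.inl h0U)) (Or.inr h3V)
    rcases hx1 with (hx | hx) | hx
    · exact hUV x hx (hL' hx2).1
    · exact hball hx hx2
    · have := (hL' hx2).2
      rw [hVo.interior_eq] at this
      exact this hx

/-- a continuous function on a connected set with constant nonzero power is constant -/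
theorem root_const {C : Set ℂ} (hC : IsPreconnected C) {q : ℂ → ℂ} (hq : ContinuousOn q C) {n : ℕ}
    (hn : n ≠ 0) (h : ∀ v ∈ C, q v ^ n = 1) {v w : ℂ} (hv : v ∈ C) (hw : w ∈ C) : q v = q w := by
  have hfin : {z : ℂ | z ^ n = 1}.Finite := by
    have h1 : {z : ℂ | z ^ n = 1} = ((Polynomial.nthRoots n (1:ℂ)).toFinset : Set ℂ) := by
      ext z
      simp [Polynomial.mem_nthRoots (Nat.pos_of_ne_zero hn)]
    rw [h1]
    exact Finset.finite_toSet _
  exact hC.constant_of_mapsTo (T := {z : ℂ | z ^ n = 1}) hfin.isDiscrete hq (fun v hv => h v hv)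
    hv hw

/-- lifting an irreducible separator through a degree one map -/
theorem piece {L : Set ℂ} (hL : Irr L) {X : ℝ → ℝ} (hX : Continuous X) {d : ℤ} (hd0 : d ≠ 0)
    (hd : ∀ s, X (s + 2 * Real.pi) = X s + 2 * Real.pi * d) :
    ∃ C : Set ℂ, IsClosed C ∧ IsPreconnected C ∧ N491.HP.Sep C 0 3 ∧ hm X '' C = L := by
  have hc := hm_cont hX hd
  set E1 := hm X ⁻¹' L with hE1
  have hE1c : IsClosed E1 := hL.cl.preimage hc
  have hE1n : ∀ v ∈ E1, 1 ≤ ‖v‖ ∧ ‖v‖ ≤ 2 := by
    intro v hv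
    have := hL.rng _ hv
    rwa [norm_hm] at this
  have h0E : (0:ℂ) ∉ E1 := by
    intro h
    have := (hE1n _ h).1
    simp at this
    linarith
  have h3E : (3:ℂ) ∉ E1 := by
    intro h
    have := (hE1n _ h).2
    simp at this
    linarith
  have hE1s : N491.HP.Sep E1 0 3 := by
    intro D hD h0 h3
    obtain ⟨D2, hD2, ha, hb, hcc⟩ := out_path (hm X 3)
    have h4 : hm X 0 = 0 := by simp [hm]
    have hU : IsPreconnected (hm X '' D ∪ D2) :=
      IsPreconnected.union (hm X 3) ⟨3, h3, rfl⟩ ha (hD.image _ hc.continuousOn) hD2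
    obtain ⟨w, hw1, hw2⟩ := hL.sep _ hU (Or.inl ⟨0, h0, h4⟩) (Or.inr hb)
    rcases hw1 with ⟨v, hv, rfl⟩ | hw1
    · exact ⟨v, hv, hw2⟩
    · exfalso
      have h5 := (hL.rng _ hw2).2
      have h6 : ‖hm X 3‖ = 3 := by rw [norm_hm]; simp
      rcases hcc w hw1 with h | ⟨h, -⟩
      · rw [h, h6] at h5
        linarith
      · rw [h6, min_self] at h
        linarith
  obtain ⟨C, hCE, hCc, hCp, hCs⟩ := N491.HP.janis hE1c h0E h3E hE1s
  refine ⟨C, hCc, hCp, hCs, ?_⟩
  have hCk : IsCompact C := by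
    refine Metric.isCompact_of_isClosed_isBounded hCc ?_
    refine (Metric.isBounded_closedBall (x := (0:ℂ)) (r := 2)).subset ?_
    intro v hv
    simpa using (hE1n v (hCE hv)).2
  have hFk : IsCompact (hm X '' C) := hCk.image hc
  have hsub : hm X '' C ⊆ L := by
    rintro _ ⟨v, hv, rfl⟩
    exact hCE hv
  refine hL.irr _ hsub hFk.isClosed ?_
  by_contra hns
  have h0F : (0:ℂ) ∉ hm X '' C := by
    intro h
    have := (hL.rng _ (hsub h)).1
    simp at this
    linarith
  obtain ⟨γ, hγ, hγ0, hγ1, hγK⟩ := path_of_not_sep hFk.isClosed h0F hns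
  obtain ⟨l, hl, hle⟩ := has_log (fun w hw => (hL.rng w (hsub hw)).2) hγ hγ0 hγ1 hγK
  have h0C : (0:ℂ) ∉ C := fun h => h0E (hCE h)
  have hbd : Bornology.IsBounded (connectedComponentIn Cᶜ (0:ℂ)) := by
    refine (Metric.isBounded_closedBall (x := (0:ℂ)) (r := 2)).subset ?_
    intro w hw
    rw [mem_closedBall, dist_zero_right]
    by_contra h
    rw [not_le] at h
    obtain ⟨D2, hD2, ha, hb, hcc⟩ := out_path w
    have hU : IsPreconnected (connectedComponentIn Cᶜ (0:ℂ) ∪ D2) :=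
      IsPreconnected.union w hw ha isPreconnected_connectedComponentIn hD2
    obtain ⟨x, hx1, hx2⟩ := hCs _ hU (Or.inl (mem_connectedComponentIn h0C)) (Or.inr hb)
    rcases hx1 with hx | hx
    · exact connectedComponentIn_subset _ _ hx hx2
    · have h5 := (hE1n _ (hCE hx2)).2
      rcases hcc x hx with h6 | ⟨h6, -⟩
      · rw [h6] at h5
        linarith
      · have : 2 < min ‖w‖ 3 := lt_min h (by norm_num)
        linarith
  have hsub0 : C ⊆ {0}ᶜ := by
    intro v hv h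
    rw [mem_singleton_iff] at h
    exact h0C (h ▸ hv)
  set u : ℂ → ℂ := fun v => l (hm X v) - (Real.log ‖v‖ : ℂ) -
    ((X (arg v) - d * arg v : ℝ) : ℂ) * I with hu
  have huc : ContinuousOn u C := by
    have a1 : ContinuousOn (fun v => l (hm X v)) C :=
      hl.comp hc.continuousOn (fun v hv => ⟨v, hv, rfl⟩)
    have a2 : ContinuousOn (fun v : ℂ => (Real.log ‖v‖ : ℂ)) C := by
      refine Complex.continuous_ofReal.comp_continuousOn (ContinuousOn.log (by fun_prop) ?_)
      intro v hv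
      exact norm_ne_zero_iff.2 (hsub0 hv)
    have a3 := per_cont (u := fun p : ℝ × ℝ => ((X p.1 - d * p.1 : ℝ) : ℂ) * I) (by fun_prop)
      (by
        intro Y t
        simp only
        rw [hd]
        congr 2
        ring) (κ := fun v : ℂ => ‖v‖) continuous_norm
    exact (a1.sub a2).sub (a3.mono hsub0)
  have hdC : (d : ℂ) ≠ 0 := by exact_mod_cast hd0
  have hlog : ∀ v : ℂ, v ≠ 0 → exp (Real.log ‖v‖ : ℂ) = ‖v‖ := by
    intro v hv
    rw [← ofReal_exp, Real.exp_log (norm_pos_iff.2 hv)]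
  have hue : ∀ v ∈ C, exp (u v) = exp (d * (arg v * I)) := by
    intro v hv
    have hv0 : v ≠ 0 := hsub0 hv
    have hvn : (‖v‖ : ℂ) ≠ 0 := by simpa using hv0
    simp only [hu]
    rw [exp_sub, exp_sub, hle _ ⟨v, hv, rfl⟩, hlog v hv0]
    have e1 : hm X v = (‖v‖ : ℂ) * exp (X (arg v) * I) := rfl
    rw [e1, mul_div_cancel_left₀ _ hvn, ← exp_sub]
    congr 1
    push_cast
    ring
  set q : ℂ → ℂ := fun v => v / (‖v‖ : ℂ) * exp (-(u v / d)) with hq
  have hqc : ContinuousOn q C := by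
    have a1 : ContinuousOn (fun v : ℂ => v / (‖v‖ : ℂ)) C := by
      refine ContinuousOn.div (by fun_prop) (by fun_prop) ?_
      intro v hv
      have : v ≠ 0 := hsub0 hv
      simpa using this
    exact a1.mul (Complex.continuous_exp.comp_continuousOn (huc.div_const _).neg)
  have hpol : ∀ v : ℂ, v ≠ 0 → v / (‖v‖ : ℂ) = exp (arg v * I) := by
    intro v hv
    have hvn : (‖v‖ : ℂ) ≠ 0 := by simpa using hv
    rw [div_eq_iff hvn, mul_comm, norm_mul_exp_arg_mul_I]
  have hq1 : ∀ v ∈ C, q v = exp (arg v * I - u v / d) := by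
    intro v hv
    simp only [hq]
    rw [hpol v (hsub0 hv), ← exp_add]
    congr 1
  have hqz : ∀ v ∈ C, q v ^ d = 1 := by
    intro v hv
    rw [hq1 v hv, ← exp_int_mul]
    have e1 : (d : ℂ) * (arg v * I - u v / d) = d * (arg v * I) - u v := by
      field_simp
    rw [e1, exp_sub, hue v hv, div_self (exp_ne_zero _)]
  have hqn : ∀ v ∈ C, q v ^ d.natAbs = 1 := by
    intro v hv
    have h1 := hqz v hv
    rcases Int.natAbs_eq d with h2 | h2
    · rw [h2, zpow_natCast] at h1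
      simpa using h1
    · rw [h2, zpow_neg, zpow_natCast, inv_eq_one] at h1
      simpa using h1
  obtain ⟨v0, -, hv0⟩ := hCs univ isPreconnected_univ (mem_univ _) (mem_univ _)
  have hqconst : ∀ v ∈ C, q v = q v0 := fun v hv =>
    root_const hCp hqc (Int.natAbs_ne_zero.2 hd0) hqn hv hv0
  have hq0 : q v0 ≠ 0 := by
    rw [hq1 v0 hv0]
    exact exp_ne_zero _
  refine no_log hCk h0C hbd (L := fun v => (Real.log ‖v‖ : ℂ) + log (q v0) + u v / d) ?_ ?_
  · have a2 : ContinuousOn (fun v : ℂ => (Real.log ‖v‖ : ℂ)) C := by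
      refine Complex.continuous_ofReal.comp_continuousOn (ContinuousOn.log (by fun_prop) ?_)
      intro v hv
      exact norm_ne_zero_iff.2 (hsub0 hv)
    exact (a2.add continuousOn_const).add (huc.div_const _)
  · intro v hv
    have hv0' : v ≠ 0 := hsub0 hv
    rw [exp_add, exp_add, hlog v hv0', exp_log hq0, ← hqconst v hv, hq1 v hv, sub_zero, mul_assoc,
      ← exp_add]
    have e1 : (arg v * I - u v / d + u v / d : ℂ) = arg v * I := by ring
    rw [e1, norm_mul_exp_arg_mul_I]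

theorem side {C C' : Set ℂ} (hC : IsPreconnected C) (hdis : ∀ v ∈ C, v ∉ C') {ρ : ℝ} (hρ : ρ < 3)
    (hmax : ∀ v ∈ C', ‖v‖ ≤ ρ) {v : ℂ} (hv : v ∈ C) (hvρ : ‖v‖ = ρ) :
    C ⊆ connectedComponentIn C'ᶜ 3 := by
  obtain ⟨D, hD, ha, hb, hcc⟩ := out_path v
  have hU : IsPreconnected (C ∪ D) := IsPreconnected.union v hv ha hC hD
  refine subset_union_left.trans (hU.subset_connectedComponentIn (Or.inr hb) ?_)
  rintro x (hx | hx) hxC'
  · exact hdis x hx hxC'
  · rcases hcc x hx with h | ⟨-, h⟩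
    · rw [h] at hxC'
      exact hdis v hv hxC'
    · have h1 := h (by rw [hvρ]; exact hρ)
      have h2 := hmax x hxC'
      linarith

/-- the topological lemma -/
theorem TL {Φ : ℝ × ℝ → ℝ} (hΦ : Continuous Φ) (hper : ∀ X t, Φ (X + 2 * Real.pi, t) = Φ (X, t))
    (h0 : ∀ X, Φ (X, 0) = 0) (h1 : ∀ X, Real.pi < Φ (X, 1)) {X Y : ℝ → ℝ} (hX : Continuous X)
    {d : ℤ} (hd0 : d ≠ 0) (hdX : ∀ s, X (s + 2 * Real.pi) = X s + 2 * Real.pi * d)
    {e : ℤ} (he0 : e ≠ 0) (hY : Continuous Y)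
    (hdY : ∀ s, Y (s + 2 * Real.pi) = Y s + 2 * Real.pi * e) :
    ∃ s t, Φ (X s, t) = Real.pi ∧ Φ (Y s, t) = Real.pi := by
  have hpi := Real.pi_pos
  set κ : ℂ → ℝ := fun v => max 0 (min 1 (‖v‖ - 1)) with hκ
  have hκc : Continuous κ := by fun_prop
  have hκ0 : ∀ v, ‖v‖ ≤ 1 → κ v = 0 := by
    intro v hv
    simp only [hκ]
    rw [max_eq_left ((min_le_right _ _).trans (by linarith))]
  have hκ1 : ∀ v, 2 ≤ ‖v‖ → κ v = 1 := by
    intro v hv
    simp only [hκ]
    rw [min_eq_left (by linarith), max_eq_right zero_le_one]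
  set F : ℂ → ℝ := fun v => Φ (arg v, κ v) with hF
  have hFc : Continuous F := by
    rw [continuous_iff_continuousAt]
    intro v
    by_cases hv : v = 0
    · subst hv
      have h2 : ∀ᶠ w in 𝓝 (0:ℂ), (fun _ : ℂ => (0:ℝ)) w = F w := by
        filter_upwards [Metric.ball_mem_nhds (0:ℂ) one_pos] with w hw
        simp only [hF]
        rw [hκ0 w (by simpa using (mem_ball_zero_iff.1 hw).le), h0]
      exact (continuousAt_const).congr h2
    · exact (per_cont hΦ hper hκc).continuousAt (isOpen_compl_singleton.mem_nhds hv)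
  have hF0 : ∀ v, ‖v‖ ≤ 1 → F v = 0 := by
    intro v hv
    simp only [hF]
    rw [hκ0 v hv, h0]
  have hF1 : ∀ v, 2 ≤ ‖v‖ → Real.pi < F v := by
    intro v hv
    simp only [hF]
    rw [hκ1 v hv]
    exact h1 _
  obtain ⟨L, hLA, hL⟩ := exists_irr (A := F ⁻¹' {Real.pi}) (isClosed_singleton.preimage hFc)
    (by
      intro w hw
      have hw' : F w = Real.pi := hw
      constructor
      · by_contra h
        rw [hF0 w (not_le.1 h).le] at hw'
        linarith
      · by_contra h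
        have := hF1 w (not_le.1 h).le
        linarith)
    (by
      intro D hD h0D h3D
      have h2 := hD.intermediate_value h0D h3D hFc.continuousOn
      obtain ⟨w, hw1, hw2⟩ := h2 (show Real.pi ∈ Icc (F 0) (F 3) from
        ⟨by rw [hF0 0 (by simp)]; exact hpi.le, (hF1 3 (by simp; norm_num)).le⟩)
      exact ⟨w, hw1, hw2⟩)
  obtain ⟨C1, hc1, hp1, hs1, he1⟩ := piece hL hX hd0 hdX
  obtain ⟨C2, hc2, hp2, hs2, he2⟩ := piece hL hY he0 hdY
  by_contra hcon
  push Not at hcon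
  have hval : ∀ (Z : ℝ → ℝ) (v : ℂ), v ≠ 0 → hm Z v ∈ L → Φ (Z (arg v), κ v) = Real.pi := by
    intro Z v hv hvL
    have h2 : F (hm Z v) = Real.pi := hLA hvL
    have h3 : κ (hm Z v) = κ v := by
      simp only [hκ, norm_hm]
    simp only [hF] at h2
    rw [h3] at h2
    rw [← h2]
    refine per_eq hper ?_
    exact (polar_exp (norm_pos_iff.2 hv)).symm
  have hne : ∀ (Z : ℝ → ℝ) (v : ℂ), hm Z v ∈ L → v ≠ 0 := by
    rintro Z v hv rfl
    have := (hL.rng _ hv).1
    rw [norm_hm] at this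
    simp at this
    linarith
  have hdis : ∀ v ∈ C1, v ∉ C2 := by
    intro v hv1 hv2
    have a1 : hm X v ∈ L := he1 ▸ ⟨v, hv1, rfl⟩
    have a2 : hm Y v ∈ L := he2 ▸ ⟨v, hv2, rfl⟩
    have hv0 := hne X v a1
    exact hcon _ _ (hval X v hv0 a1) (hval Y v hv0 a2)
  have hLk : IsCompact L := by
    refine Metric.isCompact_of_isClosed_isBounded hL.cl ?_
    refine (Metric.isBounded_closedBall (x := (0:ℂ)) (r := 2)).subset ?_
    intro v hv
    simpa using (hL.rng v hv).2
  have hLne : L.Nonempty := by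
    obtain ⟨w, -, hw⟩ := hL.sep univ isPreconnected_univ (mem_univ _) (mem_univ _)
    exact ⟨w, hw⟩
  obtain ⟨w, hw, hmax⟩ := hLk.exists_isMaxOn hLne (f := fun v : ℂ => ‖v‖)
    continuous_norm.continuousOn
  have hw3 : ‖w‖ < 3 := by
    have := (hL.rng w hw).2
    linarith
  have hm1 : ∀ v ∈ C1, ‖v‖ ≤ ‖w‖ := by
    intro v hv
    have a1 : hm X v ∈ L := he1 ▸ ⟨v, hv, rfl⟩
    have := hmax a1
    simp only [mem_ofPred_eq] at this
    rwa [norm_hm] at this
  have hm2 : ∀ v ∈ C2, ‖v‖ ≤ ‖w‖ := by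
    intro v hv
    have a1 : hm Y v ∈ L := he2 ▸ ⟨v, hv, rfl⟩
    have := hmax a1
    simp only [mem_ofPred_eq] at this
    rwa [norm_hm] at this
  obtain ⟨v1, hv1, hv1w⟩ : w ∈ hm X '' C1 := he1 ▸ hw
  obtain ⟨v2, hv2, hv2w⟩ : w ∈ hm Y '' C2 := he2 ▸ hw
  have n1 : ‖v1‖ = ‖w‖ := by rw [← hv1w, norm_hm]
  have n2 : ‖v2‖ = ‖w‖ := by rw [← hv2w, norm_hm]
  have s1 : C1 ⊆ connectedComponentIn C2ᶜ 3 := side hp1 hdis hw3 hm2 hv1 n1
  have s2 : C2 ⊆ connectedComponentIn C1ᶜ 3 := side hp2 (fun v h h' => hdis v h' h) hw3 hm1 hv2 n2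
  set V1 := connectedComponentIn C1ᶜ (3:ℂ) with hV1
  set V2 := connectedComponentIn C2ᶜ (3:ℂ) with hV2
  have o1 : IsOpen V1 := hc1.isOpen_compl.connectedComponentIn
  have o2 : IsOpen V2 := hc2.isOpen_compl.connectedComponentIn
  have f1 : frontier V1 ⊆ C1 := by
    have := N491.HP.frontier_comp (O := C1ᶜ) hc1.isOpen_compl (b := (3:ℂ))
    rwa [compl_compl] at this
  have f2 : frontier V2 ⊆ C2 := by
    have := N491.HP.frontier_comp (O := C2ᶜ) hc2.isOpen_compl (b := (3:ℂ))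
    rwa [compl_compl] at this
  have hcl : IsClosed (V1 ∪ V2) := by
    rw [← closure_subset_iff_isClosed, closure_union]
    rintro x (hx | hx)
    · by_cases h : x ∈ V1
      · exact Or.inl h
      · exact Or.inr (s1 (f1 ⟨hx, by rwa [o1.interior_eq]⟩))
    · by_cases h : x ∈ V2
      · exact Or.inr h
      · exact Or.inl (s2 (f2 ⟨hx, by rwa [o2.interior_eq]⟩))
  have hne3 : (V1 ∪ V2).Nonempty := ⟨v2, Or.inl (s2 hv2)⟩
  have huniv : V1 ∪ V2 = univ := IsClopen.eq_univ ⟨hcl, o1.union o2⟩ hne3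
  have h3V1 : (3:ℂ) ∈ V1 := by
    refine mem_connectedComponentIn ?_
    intro h
    have := hm1 _ h
    simp at this
    linarith
  have h3V2 : (3:ℂ) ∈ V2 := by
    refine mem_connectedComponentIn ?_
    intro h
    have := hm2 _ h
    simp at this
    linarith
  have h0m : (0:ℂ) ∈ V1 ∪ V2 := by rw [huniv]; trivial
  rcases h0m with h | h
  · obtain ⟨x, hx1, hx2⟩ := hs1 V1 isPreconnected_connectedComponentIn h h3V1
    exact connectedComponentIn_subset _ _ hx1 hx2
  · obtain ⟨x, hx1, hx2⟩ := hs2 V2 isPreconnected_connectedComponentIn h h3V2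
    exact connectedComponentIn_subset _ _ hx1 hx2

end Pool.Agent.H512SP
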