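import Mathlib
import Pool.Agent.H512SP.TL

/-!
# The annulus of pairs of points of a closed curve
-/

set_option autoImplicit false

open Set Topology Metric

namespace Pool.Agent.H512SP

variable {α : Type*} [MetricSpace α]

/-- the pair of points of the curve coded by a point of the annulus -/
noncomputable def HH (f : Circle → α) (w : ℂ) : α × α :=
  (f (ca w), f (ca w * Circle.exp (vv ‖w‖)))

/-- the far pairs -/
def KK (f : Circle → α) (r : ℝ) : Set ℂ :=
  {w | (1 ≤ ‖w‖ ∧ ‖w‖ ≤ 2) ∧ r ≤ dist (HH f w).1 (HH f w).2}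

theorem HH_cont {f : Circle → α} (hf : Continuous f) : ContinuousOn (HH f) {0}ᶜ := by
  have h1 : ContinuousOn (fun w : ℂ => ca w * Circle.exp (vv ‖w‖)) {0}ᶜ := by
    refine ca_cont.mul (Continuous.continuousOn ?_)
    exact Circle.exp.continuous.comp (vv_cont.comp continuous_norm)
  exact (hf.comp_continuousOn ca_cont).prodMk (hf.comp_continuousOn h1)

theorem KK_norm {f : Circle → α} {r : ℝ} : ∀ w ∈ KK f r, 1 ≤ ‖w‖ ∧ ‖w‖ ≤ 2 := fun _ hw => hw.1

theorem KK_closed {f : Circle → α} (hf : Continuous f) (r : ℝ) : IsClosed (KK f r) := by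
  set A : Set ℂ := {w | 1 ≤ ‖w‖ ∧ ‖w‖ ≤ 2} with hA
  have hAc : IsClosed A := by
    have : A = {w : ℂ | 1 ≤ ‖w‖} ∩ {w : ℂ | ‖w‖ ≤ 2} := by ext; simp [hA]
    rw [this]
    exact (isClosed_le continuous_const continuous_norm).inter
      (isClosed_le continuous_norm continuous_const)
  have hA0 : A ⊆ {0}ᶜ := by
    intro w hw h
    rw [mem_singleton_iff] at h
    rw [h] at hw
    have := hw.1
    simp at this
    linarith
  have hdc : ContinuousOn (fun w => dist (HH f w).1 (HH f w).2) {0}ᶜ :=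
    continuous_dist.comp_continuousOn (HH_cont hf)
  have hK : KK f r = A ∩ (fun w => dist (HH f w).1 (HH f w).2) ⁻¹' Ici r := by
    ext w
    simp [KK, hA]
  rw [hK]
  exact (hdc.mono hA0).preimage_isClosed_of_isClosed hAc isClosed_Ici

theorem zero_notMem {S : Set ℂ} (h : ∀ w ∈ S, 1 ≤ ‖w‖ ∧ ‖w‖ ≤ 2) : (0:ℂ) ∉ S ∧ (3:ℂ) ∉ S := by
  constructor
  · intro h0
    have := (h _ h0).1
    simp at this
    linarith
  · intro h0
    have := (h _ h0).2
    simp at this
    linarith

theorem compact_of {S : Set ℂ} (hS : IsClosed S) (h : ∀ w ∈ S, 1 ≤ ‖w‖ ∧ ‖w‖ ≤ 2) :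
    IsCompact S := by
  refine Metric.isCompact_of_isClosed_isBounded hS ?_
  refine (Metric.isBounded_closedBall (x := (0:ℂ)) (r := 2)).subset ?_
  intro w hw
  simpa using (h w hw).2

theorem not_sep_sweep {f : Circle → α} (hf : Continuous f) {r : ℝ} (hr : 0 < r)
    (hs : ¬ N491.HP.Sep (KK f r) 0 3) :
    ∃ P Q : ℝ → ℝ, Continuous P ∧ Continuous Q ∧ Q 0 = P 0 ∧ Q 1 = P 1 + 2 * Real.pi ∧
      ∀ t, dist (f (Circle.exp (P t))) (f (Circle.exp (Q t))) < r := by
  obtain ⟨g, hgc, hg0, hg1, hgK⟩ := path_of_not_sep (KK_closed hf r)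
    (zero_notMem (KK_norm (f := f))).1 hs
  have hSc : IsCompact (Icc (0:ℝ) 1 ∩ {t | ‖g t‖ ≤ 1}) :=
    isCompact_Icc.inter_right (isClosed_le (by fun_prop) continuous_const)
  obtain ⟨t0, ht0, hmax⟩ := hSc.exists_isGreatest ⟨0, by simp, by simp [hg0]⟩
  have ht01 : t0 < 1 := by
    rcases lt_or_eq_of_le ht0.1.2 with h | h
    · exact h
    · exfalso
      have := ht0.2
      rw [h, mem_ofPred_eq, hg1] at this
      norm_num at this
  have hlt : ∀ t, t0 < t → t ≤ 1 → 1 < ‖g t‖ := by
    intro t h1 h2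
    by_contra h
    have := hmax ⟨⟨ht0.1.1.trans h1.le, h2⟩, not_lt.1 h⟩
    linarith
  have ht0n : ‖g t0‖ = 1 := by
    by_contra hne
    have hlt0 : ‖g t0‖ < 1 := lt_of_le_of_ne ht0.2 hne
    obtain ⟨t1, ht1, h1⟩ := intermediate_value_Icc ht01.le
      (f := fun t => ‖g t‖) (by fun_prop) (show (1:ℝ) ∈ Icc ‖g t0‖ ‖g 1‖ by
        rw [hg1]; constructor
        · exact hlt0.le
        · norm_num)
    rcases lt_or_eq_of_le ht1.1 with h | h
    · have := hlt t1 h ht1.2
      simp only at h1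
      linarith
    · simp only at h1
      rw [h] at hne
      exact hne h1
  set q : ℝ → ℝ := fun t => t0 + (1 - t0) * max 0 (min 1 t) with hq
  have hqc : Continuous q := by fun_prop
  have hq0 : q 0 = t0 := by simp [hq]
  have hq1 : q 1 = 1 := by simp [hq]
  have hqm : ∀ t, t0 ≤ q t ∧ q t ≤ 1 := by
    intro t
    have h1 : 0 ≤ max 0 (min 1 t) := le_max_left _ _
    have h2 : max 0 (min 1 t) ≤ 1 := max_le zero_le_one (min_le_left _ _)
    constructor
    · simp only [hq]
      nlinarith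
    · simp only [hq]
      nlinarith
  have hge : ∀ t, 1 ≤ ‖g (q t)‖ := by
    intro t
    rcases lt_or_eq_of_le (hqm t).1 with h | h
    · exact (hlt _ h (hqm t).2).le
    · rw [← h, ht0n]
  obtain ⟨L, hL, hLe⟩ := H777R2.exists_log (X := ℝ) (g := fun t => g (q t)) (by fun_prop)
    (fun t h => by
      have := hge t
      rw [h] at this
      simp at this
      linarith)
  refine ⟨fun t => (L t).im, fun t => (L t).im + vv ‖g (q t)‖, by fun_prop, ?_, ?_, ?_, ?_⟩
  · have := vv_cont
    fun_prop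
  · simp only
    rw [hq0, ht0n, vv_le le_rfl, add_zero]
  · simp only
    rw [hq1, hg1, vv_ge (by norm_num)]
  · intro t
    simp only
    have hge' := hge t
    have hca : ca (g (q t)) = Circle.exp (L t).im := by
      rw [← hLe t]
      have e2 : Complex.exp (L t) = ((Real.exp (L t).re : ℝ) : ℂ) *
          Complex.exp ((L t).im * Complex.I) := by
        rw [Complex.ofReal_exp, ← Complex.exp_add, Complex.re_add_im]
      rw [e2]
      exact ca_polar (Real.exp_pos _)
    rcases le_or_gt ‖g (q t)‖ 2 with h | h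
    · have hnK := hgK (q t)
      have h2 : ¬ r ≤ dist (HH f (g (q t))).1 (HH f (g (q t))).2 := fun h3 => hnK ⟨⟨hge', h⟩, h3⟩
      simp only [HH, hca] at h2
      rw [Circle.exp_add]
      exact not_le.1 h2
    · rw [vv_ge h.le, Circle.exp_add, Circle.exp_two_pi, mul_one, dist_self]
      exact hr

/-- a separating set of far pairs is met by every pair of motions which passes each other -/
theorem meets_of_sep {f : Circle → α} {r : ℝ} (hr : 0 < r) {C : Set ℂ} (hCK : C ⊆ KK f r)
    (hCs : N491.HP.Sep C 0 3) {P Q : ℝ → ℝ} (hP : Continuous P) (hQ : Continuous Q)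
    (h0 : Q 0 = P 0) (h1 : Q 1 = P 1 + 2 * Real.pi) :
    ∃ t ∈ Icc (0:ℝ) 1, (f (Circle.exp (P t)), f (Circle.exp (Q t))) ∈ HH f '' C := by
  have hpi := Real.pi_pos
  set cl : ℝ → ℝ := fun t => max 0 (min 1 ((Q t - P t) / (2 * Real.pi))) with hcl
  have hclc : Continuous cl := by fun_prop
  have hclm : ∀ t, 0 ≤ cl t ∧ cl t ≤ 1 := fun t =>
    ⟨le_max_left _ _, max_le zero_le_one (min_le_left _ _)⟩
  have hcl0 : cl 0 = 0 := by
    simp [hcl, h0]
  have hcl1 : cl 1 = 1 := by
    simp only [hcl]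
    rw [h1, add_sub_cancel_left, div_self (by positivity), min_self, max_eq_right zero_le_one]
  set g : ℝ → ℂ := fun t => ((1 + cl t : ℝ) : ℂ) * Complex.exp ((P t : ℂ) * Complex.I) with hg
  have hgc : Continuous g := by
    refine Continuous.mul (Complex.continuous_ofReal.comp (by fun_prop))
      (Complex.continuous_exp.comp (Continuous.mul (Complex.continuous_ofReal.comp hP)
        continuous_const))
  have hgn : ∀ t, ‖g t‖ = 1 + cl t := fun t => norm_polar (by linarith [(hclm t).1])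
  -- dist vanishes near the ends
  have hend : ∀ w ∈ C, 1 < ‖w‖ ∧ ‖w‖ < 2 := by
    intro w hw
    obtain ⟨⟨ha, hb⟩, hc⟩ := hCK hw
    constructor
    · rcases lt_or_eq_of_le ha with h | h
      · exact h
      · exfalso
        simp only [HH] at hc
        rw [← h, vv_le le_rfl, Circle.exp_zero, mul_one, dist_self] at hc
        linarith
    · rcases lt_or_eq_of_le hb with h | h
      · exact h
      · exfalso
        simp only [HH] at hc
        rw [h, vv_ge le_rfl, Circle.exp_two_pi, mul_one, dist_self] at hc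
        linarith
  obtain ⟨D2, hD2, ha2, hb2, hc2⟩ := out_path (g 1)
  have hI : IsPreconnected (g '' Icc 0 1) := isPreconnected_Icc.image g hgc.continuousOn
  have hS : IsPreconnected (segment ℝ (0:ℂ) (g 0)) := (convex_segment _ _).isPreconnected
  have hU1 : IsPreconnected (segment ℝ (0:ℂ) (g 0) ∪ g '' Icc 0 1) :=
    IsPreconnected.union (g 0) (right_mem_segment _ _ _) ⟨0, by simp, rfl⟩ hS hI
  have hU2 : IsPreconnected (segment ℝ (0:ℂ) (g 0) ∪ g '' Icc 0 1 ∪ D2) :=
    IsPreconnected.union (g 1) (Or.inr ⟨1, by simp, rfl⟩) ha2 hU1 hD2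
  obtain ⟨x, hx, hxC⟩ := hCs _ hU2 (Or.inl (Or.inl (left_mem_segment _ _ _))) (Or.inr hb2)
  obtain ⟨e1, e2⟩ := hend x hxC
  rcases hx with (hx | ⟨t, ht, rfl⟩) | hx
  · exfalso
    obtain ⟨a, b, ha, hb, hab, rfl⟩ := hx
    rw [smul_zero, zero_add, norm_smul, hgn, hcl0, Real.norm_eq_abs, abs_of_nonneg hb] at e1
    linarith
  · refine ⟨t, ht, g t, hxC, ?_⟩
    rw [hgn] at e1 e2
    have e3 : 0 < cl t := by linarith
    have e4 : cl t < 1 := by linarith
    have e5 : cl t = (Q t - P t) / (2 * Real.pi) := by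
      simp only [hcl] at e3 e4 ⊢
      rcases lt_max_iff.1 e3 with h | h
      · exact absurd h (lt_irrefl _)
      · rw [max_eq_right h.le] at e4 ⊢
        rcases min_lt_iff.1 e4 with h' | h'
        · exact absurd h' (lt_irrefl _)
        · exact min_eq_right h'.le
    have hv : vv ‖g t‖ = Q t - P t := by
      rw [hgn]
      unfold vv
      have e6 : (1 + cl t - 1) = cl t := by ring
      rw [e6, min_eq_right e4.le, max_eq_right e3.le, e5]
      field_simp
    have hca : ca (g t) = Circle.exp (P t) := ca_polar (by linarith)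
    simp only [HH]
    rw [hv, hca, ← Circle.exp_add, add_sub_cancel]
  · exfalso
    rcases hc2 x hx with h | ⟨h, -⟩
    · rw [h, hgn, hcl1] at e2
      linarith
    · rw [hgn, hcl1] at h
      have : min (1 + 1 : ℝ) 3 = 2 := by norm_num
      rw [this] at h
      linarith

end Pool.Agent.H512SP
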