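import Mathlib
import Pool.Agent.H777R2.Top
import Pool.Agent.H512SP.Log

/-!
# A sweep of a simple closed curve by short chords forbids exchanging two far points inside
-/

set_option autoImplicit false

open Set Topology Complex Metric

namespace Pool.Agent.H512SP

theorem exp_neg_of_im {w : ℂ} {σ : ℝ} (hσ : σ = Real.pi ∨ σ = -Real.pi) (h : w.im = σ) :
    exp w = -((Real.exp w.re : ℝ) : ℂ) := by
  have e : exp (w.im * I) = -1 := by
    rw [h]
    rcases hσ with h | h
    · rw [h, exp_pi_mul_I]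
    · rw [h]
      push_cast
      rw [neg_mul, exp_neg, exp_pi_mul_I]
      norm_num
  have e2 : w = w.re + w.im * I := (re_add_im w).symm
  calc exp w = exp (w.re + w.im * I) := by rw [← e2]
    _ = exp w.re * exp (w.im * I) := exp_add _ _
    _ = _ := by rw [e, ofReal_exp]; ring

theorem on_seg {a b x : ℂ} {c : ℝ} (hc : 0 < c) (h : (b - x) = -(c : ℂ) * (a - x)) :
    ∃ l : ℝ, 0 < l ∧ l < 1 ∧ x = a + l * (b - a) := by
  have h1 : (1 + c : ℝ) ≠ 0 := by positivity
  refine ⟨1 / (1 + c), by positivity, by rw [div_lt_one (by positivity)]; linarith, ?_⟩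
  have h2 : (1 + (c:ℂ)) ≠ 0 := by exact_mod_cast h1
  push_cast
  field_simp
  linear_combination (-1 : ℂ) * h

theorem exch {f : Circle → ℂ} (hf : Continuous f) (hi : Function.Injective f) {P Q : ℝ → ℝ}
    (hP : Continuous P) (hQ : Continuous Q) (h0 : Q 0 = P 0) (h1 : Q 1 = P 1 + 2 * Real.pi)
    {x y : ℝ → ℂ} (hx : Continuous x) (hy : Continuous y) (hxf : ∀ s, x s ∉ range f)
    (hyf : ∀ s, y s ∉ range f) (e1 : x 1 = y 0) (e2 : y 1 = x 0)
    (hb : Bornology.IsBounded (connectedComponentIn (range f)ᶜ (x 0)))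
    (hd : ∀ s t, dist (f (Circle.exp (P t))) (f (Circle.exp (Q t))) < dist (x s) (y s)) :
    False := by
  set G : ℝ → ℂ := fun u => f (Circle.exp u) with hG
  have hGc : Continuous G := by fun_prop
  have hG2 : ∀ u, G (u + 2 * Real.pi) = G u := by
    intro u
    simp only [hG]
    rw [Circle.exp_add, Circle.exp_two_pi, mul_one]
  have hGx : ∀ u s, G u - x s ≠ 0 := by
    intro u s h
    exact hxf s ⟨Circle.exp u, (sub_eq_zero.1 h)⟩
  have hGy : ∀ u s, G u - y s ≠ 0 := by
    intro u s h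
    exact hyf s ⟨Circle.exp u, (sub_eq_zero.1 h)⟩
  -- the two logarithms
  have key : ∀ z : ℝ → ℂ, Continuous z → (∀ u s, G u - z s ≠ 0) → ∃ l : ℝ × ℝ → ℂ, Continuous l ∧
      (∀ s t, exp (l (s, t)) = (G (Q t) - z s) / (G (P t) - z s)) ∧ ∀ s, l (s, 0) = 0 := by
    intro z hz hne
    obtain ⟨k, hk, hke⟩ := H777R2.exists_log (X := ℝ × ℝ)
      (g := fun p => (G (Q p.2) - z p.1) / (G (P p.2) - z p.1))
      (by
        refine Continuous.div (by fun_prop) (by fun_prop) ?_
        intro p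
        exact hne _ _) (fun p => div_ne_zero (hne _ _) (hne _ _))
    have hk0 : ∀ s, exp (k (s, 0)) = 1 := by
      intro s
      rw [hke]
      simp only [h0]
      exact div_self (hne _ _)
    refine ⟨fun p => k p - k (0, 0), by fun_prop, ?_, ?_⟩
    · intro s t
      rw [exp_sub, hk0, div_one, hke]
    · intro s
      have := H777R2.exp_const (X := ℝ) (k := fun s => k (s, 0)) (by fun_prop) (c := 1) hk0 s 0
      simp only [this, sub_self]
  obtain ⟨l, hl, hle, hl0⟩ := key x hx hGx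
  obtain ⟨m, hm, hme, hm0⟩ := key y hy hGy
  -- exchange
  have hcmp : ∀ a b : ℝ → ℂ, Continuous a → Continuous b → a 0 = b 0 →
      (∀ t, exp (a t) = exp (b t)) → ∀ t, a t = b t := by
    intro a b ha hb hab hexp t
    have := H777R2.exp_const (X := ℝ) (k := fun t => a t - b t) (by fun_prop) (c := 1)
      (fun t => by rw [exp_sub, hexp, div_self (exp_ne_zero _)]) t 0
    simp only [hab, sub_self] at this
    exact sub_eq_zero.1 this
  have hml : ∀ t, m (1, t) = l (0, t) := by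
    refine hcmp (fun t => m (1, t)) (fun t => l (0, t)) (by fun_prop) (by fun_prop) ?_ ?_
    · simp only [hm0, hl0]
    · intro t
      rw [hme, hle, e2]
  have hlm : ∀ t, l (1, t) = m (0, t) := by
    refine hcmp (fun t => l (1, t)) (fun t => m (0, t)) (by fun_prop) (by fun_prop) ?_ ?_
    · simp only [hm0, hl0]
    · intro t
      rw [hme, hle, e1]
  -- value at time one
  obtain ⟨κ, hκ, hκe⟩ := H777R2.exists_log (X := ℝ) (g := fun u => G u - x 0) (by fun_prop)
    (fun u => hGx u 0)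
  have hlκ : ∀ t, l (0, t) = κ (Q t) - κ (P t) := by
    refine hcmp (fun t => l (0, t)) (fun t => κ (Q t) - κ (P t)) (by fun_prop) (by fun_prop) ?_ ?_
    · simp only [hl0, h0, sub_self]
    · intro t
      rw [hle, exp_sub, hκe, hκe]
  set ω : ℂ := l (0, 1) with hω
  have hshift : ∀ u, κ (u + 2 * Real.pi) - κ u = ω := by
    intro u
    have := H777R2.exp_const (X := ℝ) (k := fun u => κ (u + 2 * Real.pi) - κ u) (by fun_prop)
      (c := 1) (fun u => by
        rw [exp_sub, hκe, hκe, hG2, div_self (hGx _ _)]) u (P 1)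
    rw [this, hω, hlκ, h1]
  have hω1 : exp ω = 1 := by
    rw [hω, hle, h1, hG2, div_self (hGx _ _)]
  have hω0 : ω ≠ 0 := by
    intro h
    refine wind_ne hf hi (hxf 0) hb hκ hκe ?_
    intro u
    have := hshift u
    rw [h] at this
    exact sub_eq_zero.1 this
  obtain ⟨n, hn⟩ := exp_eq_one_iff.1 hω1
  have hn0 : n ≠ 0 := by
    rintro rfl
    apply hω0
    rw [hn]
    simp
  have hl1 : ∀ s, l (s, 1) = ω := by
    intro s
    have := H777R2.exp_const (X := ℝ) (k := fun s => l (s, 1)) (by fun_prop) (c := 1)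
      (fun s => by rw [hle, h1, hG2, div_self (hGx _ _)]) s 0
    rw [this]
  have hm1 : ∀ s, m (s, 1) = ω := by
    intro s
    have := H777R2.exp_const (X := ℝ) (k := fun s => m (s, 1)) (by fun_prop) (c := 1)
      (fun s => by rw [hme, h1, hG2, div_self (hGy _ _)]) s 1
    rw [this, hml]
  -- the level
  obtain ⟨σ, hσ, ρ, hρ, hρσ⟩ : ∃ σ : ℝ, (σ = Real.pi ∨ σ = -Real.pi) ∧ ∃ ρ : ℝ, 0 < ρ ∧
      2 * Real.pi * n - σ = ρ * σ := by
    rcases lt_or_gt_of_ne hn0 with h | h
    · have h' : (n : ℝ) ≤ -1 := by exact_mod_cast (by omega : n ≤ -1)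
      exact ⟨-Real.pi, Or.inr rfl, -2 * n - 1, by linarith, by ring⟩
    · have h' : (1 : ℝ) ≤ n := by exact_mod_cast (by omega : 1 ≤ n)
      exact ⟨Real.pi, Or.inl rfl, 2 * n - 1, by linarith, by ring⟩
  have hσ0 : σ ≠ 0 := by
    rcases hσ with h | h
    · rw [h]; exact Real.pi_ne_zero
    · rw [h]; exact neg_ne_zero.2 Real.pi_ne_zero
  have hωim : ω.im = 2 * Real.pi * n := by
    rw [hn]
    simp
    ring
  set Ψ : ℝ × ℝ → ℂ := fun p => (((l p).im - σ : ℝ) : ℂ) + I * (((m p).im - σ : ℝ) : ℂ) with hΨ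
  have hΨc : Continuous Ψ := by fun_prop
  have hΨre : ∀ p, (Ψ p).re = (l p).im - σ := by
    intro p
    simp [hΨ]
  have hΨim : ∀ p, (Ψ p).im = (m p).im - σ := by
    intro p
    simp [hΨ]
  have hΨ0 : ∀ p, Ψ p ≠ 0 := by
    rintro ⟨s, t⟩ h
    have h2 : (l (s, t)).im = σ := by
      have := hΨre (s, t)
      rw [h] at this
      simp at this
      linarith
    have h3 : (m (s, t)).im = σ := by
      have := hΨim (s, t)
      rw [h] at this
      simp at this
      linarith
    have h4 := exp_neg_of_im hσ h2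
    have h5 := exp_neg_of_im hσ h3
    rw [hle, div_eq_iff (hGx _ _)] at h4
    rw [hme, div_eq_iff (hGy _ _)] at h5
    obtain ⟨u1, a1, a2, a3⟩ := on_seg (Real.exp_pos _) h4
    obtain ⟨u2, b1, b2, b3⟩ := on_seg (Real.exp_pos _) h5
    have h6 : dist (x s) (y s) ≤ dist (G (P t)) (G (Q t)) := by
      rw [dist_comm (G (P t)), dist_eq_norm, dist_eq_norm]
      have : x s - y s = ((u1 - u2 : ℝ) : ℂ) * (G (Q t) - G (P t)) := by
        rw [a3, b3]
        push_cast
        ring
      rw [this, norm_mul, norm_real]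
      have h7 : ‖(u1 - u2 : ℝ)‖ ≤ 1 := by
        rw [Real.norm_eq_abs, abs_le]
        constructor <;> linarith
      calc ‖(u1 - u2 : ℝ)‖ * ‖G (Q t) - G (P t)‖ ≤ 1 * ‖G (Q t) - G (P t)‖ :=
            mul_le_mul_of_nonneg_right h7 (norm_nonneg _)
        _ = _ := one_mul _
    exact absurd (hd s t) (not_lt.2 h6)
  obtain ⟨M, hM, hMe⟩ := H777R2.exists_log (X := ℝ × ℝ) hΨc hΨ0
  have hΨs0 : ∀ s, Ψ (s, 0) = (-σ : ℝ) * (1 + I) := by
    intro s
    simp only [hΨ, hl0, hm0]
    simp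
    ring
  have hΨs1 : ∀ s, Ψ (s, 1) = (ρ * σ : ℝ) * (1 + I) := by
    intro s
    simp only [hΨ, hl1, hm1, hωim, hρσ]
    ring
  have h1I : (1 + I : ℂ) ≠ 0 := by
    intro h
    have := congrArg re h
    simp at this
  have hδe : ∀ s, exp (M (s, 1) - M (s, 0)) = ((-ρ : ℝ) : ℂ) := by
    intro s
    rw [exp_sub, hMe, hMe, hΨs0, hΨs1]
    have : ((-σ : ℝ) : ℂ) ≠ 0 := by exact_mod_cast neg_ne_zero.2 hσ0
    field_simp
    push_cast
    ring
  have hδ : M (1, 1) - M (1, 0) = M (0, 1) - M (0, 0) :=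
    H777R2.exp_const (X := ℝ) (k := fun s => M (s, 1) - M (s, 0)) (by fun_prop) hδe 1 0
  have hΨx : ∀ t, Ψ (1, t) = I * (starRingEnd ℂ) (Ψ (0, t)) := by
    intro t
    apply Complex.ext
    · rw [hΨre, hlm]
      simp [hΨre, hΨim]
    · rw [hΨim, hml]
      simp [hΨre, hΨim]
  have hconj : ∀ t, exp (M (1, t) - (starRingEnd ℂ) (M (0, t))) = I := by
    intro t
    rw [exp_sub, exp_conj, hMe, hMe, hΨx]
    have : (starRingEnd ℂ) (Ψ (0, t)) ≠ 0 := by
      rw [map_ne_zero]
      exact hΨ0 _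
    field_simp
  have hc2 : M (1, 1) - (starRingEnd ℂ) (M (0, 1)) = M (1, 0) - (starRingEnd ℂ) (M (0, 0)) :=
    H777R2.exp_const (X := ℝ) (k := fun t => M (1, t) - (starRingEnd ℂ) (M (0, t)))
      (by
        refine Continuous.sub (by fun_prop) (Complex.continuous_conj.comp (by fun_prop))) hconj 1 0
  have him : (M (0, 1) - M (0, 0)).im = 0 := by
    have h2 : M (0, 1) - M (0, 0) = (starRingEnd ℂ) (M (0, 1) - M (0, 0)) := by
      rw [map_sub, ← hδ]
      linear_combination hc2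
    have h3 := congrArg im h2
    simp only [conj_im] at h3
    linarith
  have h8 := hδe 0
  have h9 : M (0, 1) - M (0, 0) = (((M (0, 1) - M (0, 0)).re : ℝ) : ℂ) := by
    apply Complex.ext
    · simp
    · simpa using him
  rw [h9, ← ofReal_exp] at h8
  have h10 : Real.exp (M (0, 1) - M (0, 0)).re = -ρ := by exact_mod_cast h8
  have := Real.exp_pos (M (0, 1) - M (0, 0)).re
  linarith

end Pool.Agent.H512SP
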