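import Mathlib
import Pool.Agent.H512SP.Exch
import Pool.Agent.H512SP.TL

/-!
# Two points running once around a closed curve inside a swept simple closed curve get close
-/

set_option autoImplicit false

open Set Topology Complex Metric

namespace Pool.Agent.H512SP

theorem chord_dist {a b x y l m : ℂ} {σ : ℝ} (hσ : σ = Real.pi ∨ σ = -Real.pi) (hl : l.im = σ)
    (hm : m.im = σ) (e1 : exp l = (b - x) / (a - x)) (e2 : exp m = (b - y) / (a - y))
    (ha : a - x ≠ 0) (ha' : a - y ≠ 0) : dist x y ≤ dist a b := by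
  have h4 := exp_neg_of_im hσ hl
  have h5 := exp_neg_of_im hσ hm
  rw [e1, div_eq_iff ha] at h4
  rw [e2, div_eq_iff ha'] at h5
  obtain ⟨u1, a1, a2, a3⟩ := on_seg (Real.exp_pos _) h4
  obtain ⟨u2, b1, b2, b3⟩ := on_seg (Real.exp_pos _) h5
  rw [dist_comm a b, dist_eq_norm, dist_eq_norm]
  have : x - y = ((u1 - u2 : ℝ) : ℂ) * (b - a) := by
    rw [a3, b3]
    push_cast
    ring
  rw [this, norm_mul, norm_real]
  have h7 : ‖(u1 - u2 : ℝ)‖ ≤ 1 := by
    rw [Real.norm_eq_abs, abs_le]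
    constructor <;> linarith
  calc ‖(u1 - u2 : ℝ)‖ * ‖b - a‖ ≤ 1 * ‖b - a‖ :=
        mul_le_mul_of_nonneg_right h7 (norm_nonneg _)
    _ = _ := one_mul _

theorem log_cmp {a b : ℝ → ℂ} (ha : Continuous a) (hb : Continuous b) (hab : a 0 = b 0)
    (hexp : ∀ t, exp (a t) = exp (b t)) (t : ℝ) : a t = b t := by
  have := H777R2.exp_const (X := ℝ) (k := fun t => a t - b t) (by fun_prop) (c := 1)
    (fun t => by rw [exp_sub, hexp, div_self (exp_ne_zero _)]) t 0
  simp only [hab, sub_self] at this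
  exact sub_eq_zero.1 this

theorem ess {f : Circle → ℂ} (hf : Continuous f) (hi : Function.Injective f) {P Q : ℝ → ℝ}
    (hP : Continuous P) (hQ : Continuous Q) (h0 : Q 0 = P 0) (h1 : Q 1 = P 1 + 2 * Real.pi)
    {r : ℝ} (hlt : ∀ t, dist (f (Circle.exp (P t))) (f (Circle.exp (Q t))) ≤ r)
    {c : Circle → ℂ} (hc : Continuous c) (hcf : ∀ ζ, c ζ ∉ range f)
    (hb : Bornology.IsBounded (connectedComponentIn (range f)ᶜ (c 1)))
    {X Y : ℝ → ℝ} (hX : Continuous X) {d : ℤ} (hd0 : d ≠ 0)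
    (hdX : ∀ s, X (s + 2 * Real.pi) = X s + 2 * Real.pi * d)
    {e : ℤ} (he0 : e ≠ 0) (hY : Continuous Y)
    (hdY : ∀ s, Y (s + 2 * Real.pi) = Y s + 2 * Real.pi * e) :
    ∃ s, dist (c (Circle.exp (X s))) (c (Circle.exp (Y s))) ≤ r := by
  set G : ℝ → ℂ := fun u => f (Circle.exp u) with hG
  have hGc : Continuous G := by fun_prop
  have hG2 : ∀ u, G (u + 2 * Real.pi) = G u := by
    intro u
    simp only [hG]
    rw [Circle.exp_add, Circle.exp_two_pi, mul_one]
  set x : ℝ → ℂ := fun s => c (Circle.exp s) with hx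
  have hxc : Continuous x := by fun_prop
  have hx2 : ∀ u, x (u + 2 * Real.pi) = x u := by
    intro u
    simp only [hx]
    rw [Circle.exp_add, Circle.exp_two_pi, mul_one]
  have hx0 : x 0 = c 1 := by simp [hx]
  have hGx : ∀ u s, G u - x s ≠ 0 := by
    intro u s h
    exact hcf _ ⟨Circle.exp u, (sub_eq_zero.1 h)⟩
  obtain ⟨k, hk, hke⟩ := H777R2.exists_log (X := ℝ × ℝ)
    (g := fun p => (G (Q p.2) - x p.1) / (G (P p.2) - x p.1))
    (by
      refine Continuous.div (by fun_prop) (by fun_prop) ?_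
      intro p
      exact hGx _ _) (fun p => div_ne_zero (hGx _ _) (hGx _ _))
  have hk0 : ∀ s, exp (k (s, 0)) = 1 := by
    intro s
    rw [hke]
    simp only [h0]
    exact div_self (hGx _ _)
  obtain ⟨l, hl, hle, hl0⟩ : ∃ l : ℝ × ℝ → ℂ, Continuous l ∧
      (∀ s t, exp (l (s, t)) = (G (Q t) - x s) / (G (P t) - x s)) ∧ ∀ s, l (s, 0) = 0 := by
    refine ⟨fun p => k p - k (0, 0), by fun_prop, ?_, ?_⟩
    · intro s t
      rw [exp_sub, hk0, div_one, hke]
    · intro s
      have := H777R2.exp_const (X := ℝ) (k := fun s => k (s, 0)) (by fun_prop) (c := 1) hk0 s 0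
      simp only [this, sub_self]
  have hlper : ∀ s t, l (s + 2 * Real.pi, t) = l (s, t) := by
    intro s t
    refine log_cmp (a := fun t => l (s + 2 * Real.pi, t)) (b := fun t => l (s, t)) (by fun_prop)
      (by fun_prop) ?_ ?_ t
    · simp only [hl0]
    · intro t
      rw [hle, hle, hx2]
  obtain ⟨κ, hκ, hκe⟩ := H777R2.exists_log (X := ℝ) (g := fun u => G u - x 0) (by fun_prop)
    (fun u => hGx u 0)
  have hlκ : ∀ t, l (0, t) = κ (Q t) - κ (P t) := by
    refine log_cmp (a := fun t => l (0, t)) (b := fun t => κ (Q t) - κ (P t)) (by fun_prop)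
      (by fun_prop) ?_ ?_
    · simp only [hl0, h0, sub_self]
    · intro t
      rw [hle, exp_sub, hκe, hκe]
  set ω : ℂ := l (0, 1) with hω
  have hshift : ∀ u, κ (u + 2 * Real.pi) - κ u = ω := by
    intro u
    have := H777R2.exp_const (X := ℝ) (k := fun u => κ (u + 2 * Real.pi) - κ u) (by fun_prop)
      (c := 1) (fun u => by
        rw [exp_sub, hκe, hκe, hG2, div_self (hGx _ _)]) u (P 1)
    rw [this, hω, hlκ, h1]
  have hω1 : exp ω = 1 := by
    rw [hω, hle, h1, hG2, div_self (hGx _ _)]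
  have hω0 : ω ≠ 0 := by
    intro h
    refine wind_ne hf hi (z := x 0) (hcf _) (by rw [hx0]; exact hb) hκ hκe ?_
    intro u
    have := hshift u
    rw [h] at this
    exact sub_eq_zero.1 this
  obtain ⟨n, hn⟩ := exp_eq_one_iff.1 hω1
  have hn0 : n ≠ 0 := by
    rintro rfl
    apply hω0
    rw [hn]
    simp
  have hl1 : ∀ s, l (s, 1) = ω := by
    intro s
    have := H777R2.exp_const (X := ℝ) (k := fun s => l (s, 1)) (by fun_prop) (c := 1)
      (fun s => by rw [hle, h1, hG2, div_self (hGx _ _)]) s 0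
    rw [this]
  have hωim : ω.im = 2 * Real.pi * n := by
    rw [hn]
    simp
    ring
  have hpi := Real.pi_pos
  -- use the topological lemma
  have fin : ∀ (s t σ : ℝ), (σ = Real.pi ∨ σ = -Real.pi) → (l (X s, t)).im = σ →
      (l (Y s, t)).im = σ → ∃ s, dist (c (Circle.exp (X s))) (c (Circle.exp (Y s))) ≤ r := by
    intro s t σ hσ ha hb
    refine ⟨s, le_trans ?_ (hlt t)⟩
    exact chord_dist hσ ha hb (hle (X s) t) (hle (Y s) t) (hGx _ _) (hGx _ _)
  rcases lt_or_gt_of_ne hn0 with h | h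
  · have h' : (n : ℝ) ≤ -1 := by exact_mod_cast (by omega : n ≤ -1)
    obtain ⟨s, t, ha, hb⟩ := TL (Φ := fun p => -(l p).im) (by fun_prop)
      (fun X t => by simp only [hlper]) (fun X => by simp [hl0])
      (fun X => by
        simp only [hl1, hωim]
        nlinarith) hX hd0 hdX he0 hY hdY
    exact fin s t (-Real.pi) (Or.inr rfl) (by linarith) (by linarith)
  · have h' : (1 : ℝ) ≤ n := by exact_mod_cast (by omega : 1 ≤ n)
    obtain ⟨s, t, ha, hb⟩ := TL (Φ := fun p => (l p).im) (by fun_prop)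
      (fun X t => by simp only [hlper]) (fun X => by simp [hl0])
      (fun X => by
        simp only [hl1, hωim]
        nlinarith) hX hd0 hdX he0 hY hdY
    exact fin s t Real.pi (Or.inl rfl) ha hb

end Pool.Agent.H512SP
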