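import Mathlib
import Pool.Agent.H777R2.Top

/-!
# Loops of nonzero degree in open connected sets on which the coordinate has no logarithm
-/

set_option autoImplicit false

open Set Topology Metric Complex

namespace Pool.Agent.H512SP

/-- if the coordinate has no logarithm on the connected open set `U` then `U` contains a loop of
nonzero degree around the origin -/
theorem exists_loop {U : Set ℂ} (hU : IsOpen U) (hUc : IsPreconnected U) (hne : U.Nonempty)
    (h0 : (0:ℂ) ∉ U) (hno : ¬ ∃ l : ℂ → ℂ, ContinuousOn l U ∧ ∀ w ∈ U, exp (l w) = w) :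
    ∃ (L : ℝ → ℂ) (d : ℤ), Continuous L ∧ d ≠ 0 ∧
      (∀ s, L (s + 2 * Real.pi) = L s + d * (2 * Real.pi * I)) ∧ ∀ s, exp (L s) ∈ U := by
  classical
  by_contra hcon
  apply hno
  have hpc : IsPathConnected U := hU.isConnected_iff_isPathConnected.1 ⟨hne, hUc⟩
  have : PathConnectedSpace U := isPathConnected_iff_pathConnectedSpace.1 hpc
  have : LocallyPathConnectedSpace U := hU.locallyPathConnectedSpace
  obtain ⟨a0, ha0⟩ := hne
  have hU0 : ∀ w ∈ U, w ≠ 0 := fun w hw h => h0 (h ▸ hw)
  let f : C(U, {z : ℂ // z ≠ 0}) := ⟨fun w => ⟨w, hU0 w w.2⟩, by fun_prop⟩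
  have hcov := isCoveringMap_exp
  have hlift := hcov.isLocalHomeomorph.existsUnique_continuousMap_lifts f ⟨a0, ha0⟩ (log a0)
    (Subtype.ext (exp_log (hU0 a0 ha0)))
    (by
      intro γ hγ
      exact ⟨hcov.liftPath (f.comp γ) (log a0) (by
        rw [ContinuousMap.comp_apply, hγ]
        exact Subtype.ext (exp_log (hU0 a0 ha0)).symm), hcov.liftPath_zero _ _ _,
        hcov.liftPath_lifts _ _ _⟩)
    (by
      intro γ γ' Γ Γ' hγ hγ' hΓ hΓ' e e' hend
      by_contra hne
      apply hcon
      have he : ∀ t, exp (Γ t) = (γ t : ℂ) := fun t => congrArg Subtype.val (congrFun e t)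
      have he' : ∀ t, exp (Γ' t) = (γ' t : ℂ) := fun t => congrArg Subtype.val (congrFun e' t)
      -- extend to the line
      set pr : ℝ → unitInterval := fun t => projIcc 0 1 zero_le_one t with hpr
      have hprc : Continuous pr := continuous_projIcc
      set Λ : ℝ → ℂ := fun t => Γ (pr (2 * t)) + Γ' (pr (2 - 2 * t)) - Γ' 1 with hΛ
      have hΛc : Continuous Λ := by fun_prop
      have hpr1 : ∀ t, 1 ≤ t → pr t = 1 := fun t ht => projIcc_of_right_le _ ht
      have hpr0 : ∀ t, t ≤ 0 → pr t = 0 := fun t ht => projIcc_of_le_left _ ht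
      have hΛU : ∀ t, exp (Λ t) ∈ U := by
        intro t
        rcases le_or_gt t (1 / 2) with h | h
        · have h1 : pr (2 - 2 * t) = 1 := hpr1 _ (by linarith)
          simp only [hΛ]
          rw [h1, add_sub_cancel_right, he]
          exact (γ _).2
        · have h1 : pr (2 * t) = 1 := hpr1 _ (by linarith)
          simp only [hΛ]
          rw [h1, exp_sub, exp_add, he, he', he', hend]
          have h2 : ((γ' 1 : U) : ℂ) ≠ 0 := hU0 _ (γ' 1).2
          rw [mul_div_assoc, mul_comm, div_mul_cancel₀ _ h2]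
          exact (γ' _).2
      set ω : ℂ := Λ 1 - Λ 0 with hω
      have hω' : ω = Γ 1 - Γ' 1 := by
        simp only [hω, hΛ]
        have a1 : pr (2 * 1) = 1 := hpr1 _ (by norm_num)
        have a2 : pr (2 - 2 * 1) = 0 := hpr0 _ (by norm_num)
        have a3 : pr (2 * 0) = 0 := hpr0 _ (by norm_num)
        have a4 : pr (2 - 2 * 0) = 1 := hpr1 _ (by norm_num)
        rw [a1, a2, a3, a4, hΓ, hΓ']
        ring
      have hω1 : exp ω = 1 := by
        rw [hω', exp_sub, he, he', hend, div_self (hU0 _ (γ' 1).2)]
      obtain ⟨d, hd⟩ := exp_eq_one_iff.1 hω1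
      have hd0 : d ≠ 0 := by
        rintro rfl
        rw [hω'] at hd
        apply hne
        rw [← sub_eq_zero, hd]
        simp
      set h : ℝ → ℂ := fun t => Λ t - t * ω with hh
      have hhc : Continuous h := by fun_prop
      have hh01 : h 0 = h 1 := by
        simp only [hh, hω]
        push_cast
        ring
      have hfr : Continuous (h ∘ Int.fract) := ContinuousOn.comp_fract'' hhc.continuousOn hh01
      have hpi : (2 * Real.pi) ≠ 0 := by positivity
      refine ⟨fun s => (h ∘ Int.fract) (s / (2 * Real.pi)) + ((s / (2 * Real.pi) : ℝ) : ℂ) * ω, d,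
        ?_, hd0, ?_, ?_⟩
      · refine (hfr.comp (by fun_prop)).add (Continuous.mul (continuous_ofReal.comp (by fun_prop))
          continuous_const)
      · intro s
        have e1 : (s + 2 * Real.pi) / (2 * Real.pi) = s / (2 * Real.pi) + 1 := by
          field_simp
        simp only [Function.comp_apply]
        rw [e1, Int.fract_add_one, ← hd]
        push_cast
        ring
      · intro s
        set τ := s / (2 * Real.pi) with hτ
        have e1 : (h ∘ Int.fract) τ + ((τ : ℝ) : ℂ) * ω = Λ (Int.fract τ) + (⌊τ⌋ : ℤ) * ω := by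
          simp only [Function.comp_apply, hh]
          have e2 : ((τ : ℝ) : ℂ) = ((Int.fract τ : ℝ) : ℂ) + ((⌊τ⌋ : ℤ) : ℂ) := by
            have := Int.floor_add_fract τ
            rw [← this]
            push_cast
            rw [Int.floor_intCast_add, Int.fract_intCast_add]
            simp
            ring
          linear_combination ω * e2
        show exp ((h ∘ Int.fract) τ + ((τ : ℝ) : ℂ) * ω) ∈ U
        rw [e1, exp_add, exp_int_mul, hω1, one_zpow, mul_one]
        exact hΛU _)
  obtain ⟨F, ⟨-, hF⟩, -⟩ := hlift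
  refine ⟨fun w => if h : w ∈ U then F ⟨w, h⟩ else 0, ?_, ?_⟩
  · rw [continuousOn_iff_continuous_domRestrict]
    have : U.domRestrict (fun w => if h : w ∈ U then F ⟨w, h⟩ else 0) = F := by
      funext w
      simp only [Set.domRestrict_apply]
      rw [dif_pos w.2]
    rw [this]
    exact F.continuous
  · intro w hw
    simp only
    rw [dif_pos hw]
    exact congrArg Subtype.val (congrFun hF ⟨w, hw⟩)

end Pool.Agent.H512SP
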