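import Mathlib
import Pool.Agent.H512SP.Exch
import Pool.Agent.H512SP.Ess
import Pool.Agent.H512SP.Ann
import Pool.Agent.H512SP.Loop

/-!
# Spans inside a simple closed plane curve

Definitions and lemmas for the hand-ins on `MP_7f4959_gt`.
-/

set_option autoImplicit false

open Set Topology

namespace Pool.Agent.H512SP.Nest

/-- the Euclidean plane -/
abbrev E := EuclideanSpace ℝ (Fin 2)

/-- simple closed curve in the plane -/
def IsSCC (J : Set E) : Prop :=
  ∃ f : Circle → E, Continuous f ∧ Function.Injective f ∧ range f = J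

/-- the bounded complementary region of `J` -/
def inside (J : Set E) : Set E :=
  {x | x ∉ J ∧ Bornology.IsBounded (connectedComponentIn Jᶜ x)}

/-- the (Lelek) span, as in the frozen statement -/
noncomputable def span (X : Set E) : ℝ :=
  sSup {r : ℝ | ∃ Z : Set (E × E), Z ⊆ X ×ˢ X ∧ IsConnected Z ∧ IsCompact Z ∧
    Prod.fst '' Z = Prod.snd '' Z ∧ ∀ p ∈ Z, r ≤ dist p.1 p.2}

/-- the symmetric span -/
noncomputable def symSpan (X : Set E) : ℝ :=
  sSup {r : ℝ | ∃ Z : Set (E × E), Z ⊆ X ×ˢ X ∧ IsConnected Z ∧ IsCompact Z ∧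
    (∀ p ∈ Z, (p.2, p.1) ∈ Z) ∧ ∀ p ∈ Z, r ≤ dist p.1 p.2}

/-- two motions `p = f (P t)`, `q = f (Q t)` on a closed curve which start together and during
which `q` makes one full turn more than `p` -/
def IsSweep (P Q : ℝ → ℝ) : Prop :=
  Continuous P ∧ Continuous Q ∧ Q 0 = P 0 ∧ Q 1 = P 1 + 2 * Real.pi

/-- `Z` contains a pair of simultaneous positions of every sweep, that is, `Z` separates the two
ends of the annulus of pairs of different points of the curve -/
def Meets (f : Circle → E) (Z : Set (E × E)) : Prop :=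
  ∀ P Q : ℝ → ℝ, IsSweep P Q →
    ∃ t ∈ Icc (0:ℝ) 1, (f (Circle.exp (P t)), f (Circle.exp (Q t))) ∈ Z

/-- the essential span of a simple closed curve -/
noncomputable def essSpan (C : Set E) : ℝ :=
  sSup {r : ℝ | ∃ f : Circle → E, Continuous f ∧ Function.Injective f ∧ range f = C ∧
    ∃ Z : Set (E × E), Z ⊆ C ×ˢ C ∧ IsConnected Z ∧ IsCompact Z ∧ (∀ p ∈ Z, p.1 ≠ p.2) ∧
      Meets f Z ∧ ∀ p ∈ Z, r ≤ dist p.1 p.2}

theorem span_bdd {J : Set E} (hJ : IsSCC J) :
    BddAbove {r : ℝ | ∃ Z : Set (E × E), Z ⊆ J ×ˢ J ∧ IsConnected Z ∧ IsCompact Z ∧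
      Prod.fst '' Z = Prod.snd '' Z ∧ ∀ p ∈ Z, r ≤ dist p.1 p.2} := by
  obtain ⟨f, hf, -, rfl⟩ := hJ
  have hb : Bornology.IsBounded (range f) := (isCompact_range hf).isBounded
  refine ⟨Metric.diam (range f), ?_⟩
  rintro r ⟨Z, hZ, ⟨⟨p, hp⟩, -⟩, -, -, hr⟩
  exact (hr p hp).trans (Metric.dist_le_diam_of_mem hb (hZ hp).1 (hZ hp).2)

theorem span_nonneg {J : Set E} (hJ : IsSCC J) : 0 ≤ span J := by
  refine le_csSup (span_bdd hJ) ?_
  obtain ⟨f, hf, -, rfl⟩ := hJ
  refine ⟨{(f 1, f 1)}, ?_, isConnected_singleton, isCompact_singleton, ?_, ?_⟩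
  · rintro p rfl
    exact ⟨mem_range_self _, mem_range_self _⟩
  · simp
  · rintro p rfl
    simp

theorem ess_bdd (J : Set E) :
    BddAbove {r : ℝ | ∃ f : Circle → E, Continuous f ∧ Function.Injective f ∧ range f = J ∧
    ∃ Z : Set (E × E), Z ⊆ J ×ˢ J ∧ IsConnected Z ∧ IsCompact Z ∧ (∀ p ∈ Z, p.1 ≠ p.2) ∧
      Meets f Z ∧ ∀ p ∈ Z, r ≤ dist p.1 p.2} := by
  refine ⟨Metric.diam J, ?_⟩
  rintro r ⟨f, hf, -, rfl, Z, hZ, ⟨⟨p, hp⟩, -⟩, -, -, -, hr⟩
  have hb : Bornology.IsBounded (range f) := (isCompact_range hf).isBounded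
  exact (hr p hp).trans (Metric.dist_le_diam_of_mem hb (hZ hp).1 (hZ hp).2)

theorem ess_nonneg (J : Set E) : 0 ≤ essSpan J := by
  unfold essSpan
  rcases eq_empty_or_nonempty {r : ℝ | ∃ f : Circle → E, Continuous f ∧ Function.Injective f ∧
    range f = J ∧ ∃ Z : Set (E × E), Z ⊆ J ×ˢ J ∧ IsConnected Z ∧ IsCompact Z ∧
      (∀ p ∈ Z, p.1 ≠ p.2) ∧ Meets f Z ∧ ∀ p ∈ Z, r ≤ dist p.1 p.2} with h | ⟨r, hr⟩
  · rw [h, Real.sSup_empty]
  · refine le_csSup (ess_bdd J) ?_
    obtain ⟨f, h1, h2, h3, Z, h4, h5, h6, h7, h8, -⟩ := hr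
    exact ⟨f, h1, h2, h3, Z, h4, h5, h6, h7, h8, fun p _ => dist_nonneg⟩

theorem ess_le_span {J : Set E} (hJ : IsSCC J) : essSpan J ≤ span J := by
  refine Real.sSup_le ?_ (span_nonneg hJ)
  rintro r ⟨f, hf, hfi, hfJ, Z, hZ, hc, hk, hne, hm, hr⟩
  have h1 : Prod.fst '' Z = J := by
    apply Subset.antisymm
    · rintro _ ⟨p, hp, rfl⟩
      exact (hZ hp).1
    · rw [← hfJ]
      rintro _ ⟨ζ, rfl⟩
      obtain ⟨t, -, ht⟩ := hm (fun _ => Complex.arg ζ) (fun t => Complex.arg ζ + 2 * Real.pi * t)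
        ⟨by fun_prop, by fun_prop, by simp, by simp⟩
      refine ⟨_, ht, ?_⟩
      simp only
      rw [Circle.exp_arg]
  have h2 : Prod.snd '' Z = J := by
    apply Subset.antisymm
    · rintro _ ⟨p, hp, rfl⟩
      exact (hZ hp).2
    · rw [← hfJ]
      rintro _ ⟨ζ, rfl⟩
      obtain ⟨t, -, ht⟩ := hm (fun t => Complex.arg ζ - 2 * Real.pi * t) (fun _ => Complex.arg ζ)
        ⟨by fun_prop, by fun_prop, by simp, by simp⟩
      refine ⟨_, ht, ?_⟩
      simp only
      rw [Circle.exp_arg]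
  exact le_csSup (span_bdd hJ) ⟨Z, hZ, hc, hk, h1.trans h2.symm, hr⟩

/-- above the essential span the curve is swept by short chords -/
theorem sweepJ {J : Set E} {f : Circle → E} (hf : Continuous f) (hfi : Function.Injective f)
    (hfJ : range f = J) {r : ℝ} (hr : essSpan J < r) :
    ∃ (P Q : ℝ → ℝ) (r0 : ℝ), r0 < r ∧ IsSweep P Q ∧
      ∀ t, dist (f (Circle.exp (P t))) (f (Circle.exp (Q t))) ≤ r0 := by
  have hr0 : 0 < r := (ess_nonneg J).trans_lt hr
  have hns : ¬ N491.HP.Sep (KK f r) 0 3 := by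
    intro hs
    obtain ⟨C, hCK, hCc, hCp, hCs⟩ := N491.HP.janis (KK_closed hf r)
      (zero_notMem (KK_norm (f := f))).1 (zero_notMem (KK_norm (f := f))).2 hs
    have hCn : ∀ w ∈ C, 1 ≤ ‖w‖ ∧ ‖w‖ ≤ 2 := fun w hw => KK_norm w (hCK hw)
    have hC0 : C ⊆ {0}ᶜ := by
      intro w hw h
      rw [mem_singleton_iff] at h
      exact (zero_notMem hCn).1 (h ▸ hw)
    have hCH : ContinuousOn (HH f) C := (HH_cont hf).mono hC0
    have hCk := compact_of hCc hCn
    obtain ⟨w, -, hw⟩ := hCs univ isPreconnected_univ (mem_univ _) (mem_univ _)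
    have hd : ∀ p ∈ HH f '' C, r ≤ dist p.1 p.2 := by
      rintro _ ⟨w, hw, rfl⟩
      exact (hCK hw).2
    refine absurd (le_csSup (ess_bdd J) ⟨f, hf, hfi, hfJ, HH f '' C, ?_,
      ⟨⟨_, w, hw, rfl⟩, hCp.image _ hCH⟩, hCk.image_of_continuousOn hCH, ?_, ?_, hd⟩)
      (not_le.2 hr)
    · rintro _ ⟨w, hw, rfl⟩
      rw [← hfJ]
      exact ⟨mem_range_self _, mem_range_self _⟩
    · intro p hp h
      have := hd p hp
      rw [h, dist_self] at this
      linarith
    · intro P Q hPQ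
      exact meets_of_sep hr0 hCK hCs hPQ.1 hPQ.2.1 hPQ.2.2.1 hPQ.2.2.2
  obtain ⟨P, Q, hP, hQ, h0, h1, hlt⟩ := not_sep_sweep hf hr0 hns
  set cl : ℝ → ℝ := fun t => max 0 (min 1 t) with hcl
  have hclc : Continuous cl := by fun_prop
  have hcl0 : cl 0 = 0 := by simp [hcl]
  have hcl1 : cl 1 = 1 := by simp [hcl]
  have hclm : ∀ t, cl t ∈ Icc (0:ℝ) 1 := fun t =>
    ⟨le_max_left _ _, max_le zero_le_one (min_le_left _ _)⟩
  obtain ⟨t1, -, ht1⟩ := isCompact_Icc.exists_isMaxOn (s := Icc (0:ℝ) 1) ⟨0, by simp⟩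
    (f := fun t => dist (f (Circle.exp (P t))) (f (Circle.exp (Q t))))
    (Continuous.continuousOn (by fun_prop))
  exact ⟨fun t => P (cl t), fun t => Q (cl t), _, hlt t1,
    ⟨hP.comp hclc, hQ.comp hclc, by simp only [hcl0, h0], by simp only [hcl1, h1]⟩,
    fun t => ht1 (hclm t)⟩

/-- the isometry with the complex plane -/
noncomputable def toC : E ≃ₗᵢ[ℝ] ℂ := Complex.orthonormalBasisOneI.repr.symm

theorem notMem_C {J : Set E} {f : Circle → E} (hfJ : range f = J) {z : E} (hz : z ∉ J) :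
    toC z ∉ range (fun c => toC (f c)) := by
  rintro ⟨c, hc⟩
  apply hz
  rw [← hfJ]
  exact ⟨c, toC.injective hc⟩

theorem bdd_C {J : Set E} {f : Circle → E} (hfJ : range f = J) {x : E} (hx : x ∈ inside J) :
    Bornology.IsBounded (connectedComponentIn (range fun c => toC (f c))ᶜ (toC x)) := by
  have hrange : range (fun c => toC (f c)) = toC '' J := by
    rw [← hfJ]
    exact range_comp toC f
  have h2 : (range fun c => toC (f c))ᶜ = toC.toHomeomorph '' Jᶜ := by
    rw [hrange]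
    exact (image_compl_eq toC.bijective).symm
  have hxJ : x ∈ Jᶜ := hx.1
  have h3 := toC.toHomeomorph.image_connectedComponentIn hxJ
  rw [h2]
  have h4 : toC x = toC.toHomeomorph x := rfl
  rw [h4, ← h3]
  exact toC.isometry.lipschitz.isBounded_image hx.2

theorem inside_notMem {J : Set E} {x : E} (hx : x ∈ inside J) : x ∉ J := hx.1

/-- the exchange bound -/
theorem exchange {J : Set E} (hJ : IsSCC J) {Z : Set (E × E)} (hZ : IsPreconnected Z)
    (hin : ∀ p ∈ Z, p.1 ∈ inside J ∧ p.2 ∈ inside J) {x y : E} (hxy : (x, y) ∈ Z)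
    (hyx : (y, x) ∈ Z) {r : ℝ} (hr : ∀ p ∈ Z, r ≤ dist p.1 p.2) : r ≤ essSpan J := by
  by_contra hcon
  rw [not_le] at hcon
  obtain ⟨f, hf, hfi, hfJ⟩ := hJ
  obtain ⟨P, Q, r0, hr1, ⟨hP, hQ, h0, h1⟩, hle⟩ := sweepJ hf hfi hfJ hcon
  set O : Set (E × E) := {p | p.1 ∉ J ∧ p.2 ∉ J ∧ r0 < dist p.1 p.2} with hO
  have hJc : IsClosed J := by
    rw [← hfJ]
    exact (isCompact_range hf).isClosed
  have hOo : IsOpen O := by
    have : O = (Prod.fst ⁻¹' Jᶜ) ∩ ((Prod.snd ⁻¹' Jᶜ) ∩ {p | r0 < dist p.1 p.2}) := by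
      ext p
      simp [hO]
    rw [this]
    exact (hJc.isOpen_compl.preimage continuous_fst).inter
      ((hJc.isOpen_compl.preimage continuous_snd).inter (isOpen_lt continuous_const continuous_dist))
  have hZO : Z ⊆ O := fun p hp => ⟨(hin p hp).1.1, (hin p hp).2.1, hr1.trans_le (hr p hp)⟩
  set U := connectedComponentIn O (x, y) with hU
  have hxO : (x, y) ∈ O := hZO hxy
  have hUo : IsOpen U := hOo.connectedComponentIn
  have hUc : IsConnected U := ⟨⟨_, mem_connectedComponentIn hxO⟩, isPreconnected_connectedComponentIn⟩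
  have hyU : (y, x) ∈ U := hZ.subset_connectedComponentIn hxy hZO hyx
  obtain ⟨γ, hγ⟩ := (hUo.isConnected_iff_isPathConnected.1 hUc).joinedIn _
    (mem_connectedComponentIn hxO) _ hyU
  set g : ℝ → E × E := fun t => γ.extend t with hg
  have hgc : Continuous g := γ.extend.continuous
  have hg0 : g 0 = (x, y) := γ.extend_zero
  have hg1 : g 1 = (y, x) := γ.extend_one
  have hgO : ∀ t, g t ∈ O := by
    intro t
    have : g t ∈ U := hγ _
    exact connectedComponentIn_subset _ _ this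
  refine H512SP.exch (f := fun c => toC (f c)) (toC.continuous.comp hf) (toC.injective.comp hfi)
    (P := P) (Q := Q) hP hQ h0 h1
    (x := fun s => toC (g s).1) (y := fun s => toC (g s).2)
    (toC.continuous.comp (continuous_fst.comp hgc)) (toC.continuous.comp (continuous_snd.comp hgc))
    (fun s => notMem_C hfJ (hgO s).1) (fun s => notMem_C hfJ (hgO s).2.1)
    (by simp only [hg1, hg0]) (by simp only [hg1, hg0]) ?_ ?_
  · simp only [hg0]
    exact bdd_C hfJ (hin _ hxy).1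
  · intro s t
    simp only [toC.dist_map]
    exact (hle t).trans_lt (hgO s).2.2

/-- every closed curve inside `J` is swept by chords shorter than any bound above the essential
span of `J` -/
theorem sweepC {J : Set E} (hJ : IsSCC J) {c : Circle → E} (hc : Continuous c)
    (hin : ∀ ζ, c ζ ∈ inside J) {r : ℝ} (hr : essSpan J < r) :
    ∃ P Q : ℝ → ℝ, IsSweep P Q ∧ ∀ t, dist (c (Circle.exp (P t))) (c (Circle.exp (Q t))) < r := by
  have hr0 : 0 < r := (ess_nonneg J).trans_lt hr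
  obtain ⟨f, hf, hfi, hfJ⟩ := hJ
  obtain ⟨P, Q, r0, hr1, ⟨hP, hQ, h0, h1⟩, hle⟩ := sweepJ hf hfi hfJ hr
  by_contra hcon
  have hs : N491.HP.Sep (KK c r) 0 3 := by
    by_contra hns
    obtain ⟨P, Q, hP, hQ, h0, h1, hlt⟩ := not_sep_sweep hc hr0 hns
    exact hcon ⟨P, Q, ⟨hP, hQ, h0, h1⟩, hlt⟩
  obtain ⟨C, hCK, hCc, hCp, hCs⟩ := N491.HP.janis (KK_closed hc r)
    (zero_notMem (KK_norm (f := c))).1 (zero_notMem (KK_norm (f := c))).2 hs
  have hCn : ∀ w ∈ C, 1 ≤ ‖w‖ ∧ ‖w‖ ≤ 2 := fun w hw => KK_norm w (hCK hw)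
  have h0C := (zero_notMem hCn).1
  have hC0 : C ⊆ {0}ᶜ := by
    intro w hw h
    rw [mem_singleton_iff] at h
    exact h0C (h ▸ hw)
  have hCk := compact_of hCc hCn
  obtain ⟨w0, -, hw0⟩ := hCs univ isPreconnected_univ (mem_univ _) (mem_univ _)
  -- the open neighbourhood
  set O : Set ℂ := {0}ᶜ ∩ (fun w => dist (HH c w).1 (HH c w).2) ⁻¹' Ioi r0 with hO
  have hOo : IsOpen O :=
    (continuous_dist.comp_continuousOn (HH_cont hc)).isOpen_inter_preimage
      isOpen_compl_singleton isOpen_Ioi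
  have hCO : C ⊆ O := fun w hw => ⟨hC0 hw, hr1.trans_le (hCK hw).2⟩
  set U := connectedComponentIn O w0 with hU
  have hUo : IsOpen U := hOo.connectedComponentIn
  have hCU : C ⊆ U := hCp.subset_connectedComponentIn hw0 hCO
  have hUO : U ⊆ O := connectedComponentIn_subset _ _
  have hbd : Bornology.IsBounded (connectedComponentIn Cᶜ (0:ℂ)) := by
    refine (Metric.isBounded_closedBall (x := (0:ℂ)) (r := 2)).subset ?_
    intro w hw
    rw [Metric.mem_closedBall, dist_zero_right]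
    by_contra h
    rw [not_le] at h
    obtain ⟨D2, hD2, ha, hb, hcc⟩ := out_path w
    have hU : IsPreconnected (connectedComponentIn Cᶜ (0:ℂ) ∪ D2) :=
      IsPreconnected.union w hw ha isPreconnected_connectedComponentIn hD2
    obtain ⟨x, hx1, hx2⟩ := hCs _ hU (Or.inl (mem_connectedComponentIn h0C)) (Or.inr hb)
    rcases hx1 with hx | hx
    · exact connectedComponentIn_subset _ _ hx hx2
    · have h5 := (hCn _ hx2).2
      rcases hcc x hx with h6 | ⟨h6, -⟩
      · rw [h6] at h5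
        linarith
      · have : 2 < min ‖w‖ 3 := lt_min h (by norm_num)
        linarith
  obtain ⟨L, d, hL, hd0, hLp, hLU⟩ := exists_loop hUo isPreconnected_connectedComponentIn
    ⟨w0, hCU hw0⟩ (fun h => (hUO h).1 rfl) (by
      rintro ⟨l, hl, hle⟩
      exact no_log hCk h0C hbd (L := l) (hl.mono hCU) (fun w hw => by rw [sub_zero]; exact hle w (hCU hw)))
  have him : ∀ s, (L (s + 2 * Real.pi)).im = (L s).im + 2 * Real.pi * d := by
    intro s
    rw [hLp]
    simp
    ring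
  have hre : ∀ s, (L (s + 2 * Real.pi)).re = (L s).re := by
    intro s
    rw [hLp]
    simp
  have hvc := vv_cont
  obtain ⟨s, hs'⟩ := ess (f := fun c => toC (f c)) (toC.continuous.comp hf)
    (toC.injective.comp hfi) hP hQ h0 h1 (r := r0)
    (fun t => by simp only [toC.dist_map]; exact hle t)
    (c := fun ζ => toC (c ζ)) (toC.continuous.comp hc)
    (fun ζ => notMem_C hfJ (inside_notMem (hin ζ))) (bdd_C hfJ (hin 1))
    (X := fun s => (L s).im) (Y := fun s => (L s).im + vv (Real.exp (L s).re)) (by fun_prop)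
    hd0 him hd0 (by fun_prop) (fun s => by
      simp only [him, hre]
      ring)
  simp only [toC.dist_map] at hs'
  have h2 := (hUO (hLU s)).2
  have h3 : r0 < dist (HH c (Complex.exp (L s))).1 (HH c (Complex.exp (L s))).2 := h2
  have hca : ca (Complex.exp (L s)) = Circle.exp (L s).im := by
    have e2 : Complex.exp (L s) = ((Real.exp (L s).re : ℝ) : ℂ) *
        Complex.exp ((L s).im * Complex.I) := by
      rw [Complex.ofReal_exp, ← Complex.exp_add, Complex.re_add_im]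
    rw [e2]
    exact ca_polar (Real.exp_pos _)
  simp only [HH] at h3
  rw [hca, Complex.norm_exp, ← Circle.exp_add] at h3
  linarith

/-- two pairs can be joined by a connected set of pairs of points inside `J` at distance at least
`r` -/
def FarLinked (J : Set E) (r : ℝ) (a b : E × E) : Prop :=
  ∃ M : Set (E × E), IsPreconnected M ∧ a ∈ M ∧ b ∈ M ∧
    ∀ p ∈ M, p.1 ∈ inside J ∧ p.2 ∈ inside J ∧ r ≤ dist p.1 p.2

/-- a connected set of pairs of different points of a simple closed curve with equal projections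
projects onto the curve -/
theorem full_proj {C : Set E} (hC : IsSCC C) {Z : Set (E × E)} (hZ : Z ⊆ C ×ˢ C)
    (hc : IsConnected Z) (hk : IsCompact Z) (hp : Prod.fst '' Z = Prod.snd '' Z)
    (hne : ∀ p ∈ Z, p.1 ≠ p.2) : Prod.fst '' Z = C := by
  obtain ⟨f, hf, hfi, hfC⟩ := hC
  apply Subset.antisymm
  · rintro _ ⟨p, hp, rfl⟩
    exact (hZ hp).1
  intro z hz
  by_contra hzA
  rw [← hfC] at hz
  obtain ⟨ζ, rfl⟩ := hz
  have hemb : IsClosedEmbedding f := hf.isClosedEmbedding hfi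
  set e := hemb.isEmbedding.toHomeomorph with he
  classical
  set g : E → Circle := fun w => if h : w ∈ range f then e.symm ⟨w, h⟩ else 1 with hg
  have hgc : ContinuousOn g (range f) := by
    rw [continuousOn_iff_continuous_domRestrict]
    have : (range f).domRestrict g = fun w => e.symm w := by
      funext w
      simp only [Set.domRestrict_apply, hg]
      rw [dif_pos w.2]
    rw [this]
    exact e.symm.continuous
  have hgf : ∀ w ∈ range f, f (g w) = w := by
    intro w hw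
    simp only [hg]
    rw [dif_pos hw]
    have := e.apply_symm_apply ⟨w, hw⟩
    exact congrArg Subtype.val this
  set A : Set E := Prod.fst '' Z with hA
  have hAf : A ⊆ range f := by
    rintro _ ⟨p, hp, rfl⟩
    rw [hfC]
    exact (hZ hp).1
  -- the coordinate
  set u : E → ℝ := fun w => Complex.arg ((-(g w * ζ⁻¹ : Circle) : Circle) : ℂ) with hu
  have hslit : ∀ w ∈ A, ((-(g w * ζ⁻¹ : Circle) : Circle) : ℂ) ∈ Complex.slitPlane := by
    intro w hw
    rw [Complex.mem_slitPlane_iff_arg]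
    refine ⟨?_, Circle.coe_ne_zero _⟩
    intro h
    have h1 : (-(g w * ζ⁻¹ : Circle) : Circle) = -1 := by
      rw [← Circle.exp_arg (-(g w * ζ⁻¹)), h]
      apply Circle.ext
      simp [Circle.coe_exp]
    rw [neg_inj] at h1
    have h2 : g w = ζ := by
      rw [mul_inv_eq_one] at h1
      exact h1
    apply hzA
    rw [← h2, hgf w (hAf hw)]
    exact hw
  have huc : ContinuousOn u A := by
    intro w hw
    have h1 : ContinuousWithinAt (fun w => ((-(g w * ζ⁻¹ : Circle) : Circle) : ℂ)) A w := by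
      have h2 : ContinuousWithinAt g A w := (hgc.mono hAf) w hw
      have h3 : Continuous (fun ξ : Circle => ((-(ξ * ζ⁻¹ : Circle) : Circle) : ℂ)) := by
        have : Continuous (fun ξ : Circle => ((ξ : Circle) : ℂ)) := continuous_subtype_val
        exact this.comp (by fun_prop)
      exact h3.continuousAt.comp_continuousWithinAt h2
    exact ContinuousAt.comp_continuousWithinAt (g := Complex.arg)
      (f := fun w => ((-(g w * ζ⁻¹ : Circle) : Circle) : ℂ))
      (Complex.continuousAt_arg (hslit w hw)) h1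
  have huinj : ∀ a ∈ A, ∀ b ∈ A, u a = u b → a = b := by
    intro a ha b hb hab
    have h1 : (-(g a * ζ⁻¹ : Circle) : Circle) = -(g b * ζ⁻¹ : Circle) := by
      rw [← Circle.exp_arg (-(g a * ζ⁻¹)), ← Circle.exp_arg (-(g b * ζ⁻¹))]
      exact congrArg Circle.exp hab
    rw [neg_inj, mul_left_inj] at h1
    rw [← hgf a (hAf ha), ← hgf b (hAf hb), h1]
  have hAk : IsCompact A := hk.image continuous_fst
  have hAne : A.Nonempty := hc.nonempty.image _
  have h1A : ∀ p ∈ Z, p.1 ∈ A := fun p hp => ⟨p, hp, rfl⟩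
  have h2A : ∀ p ∈ Z, p.2 ∈ A := fun p hpZ => by rw [hp]; exact ⟨p, hpZ, rfl⟩
  obtain ⟨a, ha, hmax⟩ := hAk.exists_isMaxOn hAne huc
  obtain ⟨b, hb, hmin⟩ := hAk.exists_isMinOn hAne huc
  obtain ⟨p, hpZ, hpa⟩ := ha
  obtain ⟨q, hqZ, hqb⟩ := hb
  have hFc : ContinuousOn (fun p : E × E => u p.1 - u p.2) Z :=
    (huc.comp continuous_fst.continuousOn (fun p hp => h1A p hp)).sub
      (huc.comp continuous_snd.continuousOn (fun p hp => h2A p hp))
  have h0 := hc.isPreconnected.intermediate_value hqZ hpZ hFc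
  obtain ⟨w, hw, hw0⟩ := h0 (show (0:ℝ) ∈ Icc (u q.1 - u q.2) (u p.1 - u p.2) from
    ⟨by
      rw [hqb]
      have : u b ≤ u q.2 := hmin (h2A q hqZ)
      linarith, by
      rw [hpa]
      have : u p.2 ≤ u a := hmax (h2A p hpZ)
      linarith⟩)
  simp only at hw0
  exact hne w hw (huinj _ (h1A w hw) _ (h2A w hw) (by linarith))

theorem exists_of_lt_span {C : Set E} {r : ℝ} (hr0 : 0 < r) (hr : r < span C) :
    ∃ Z : Set (E × E), Z ⊆ C ×ˢ C ∧ IsConnected Z ∧ IsCompact Z ∧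
      Prod.fst '' Z = Prod.snd '' Z ∧ ∀ p ∈ Z, r ≤ dist p.1 p.2 := by
  by_contra hcon
  push Not at hcon
  have h1 : span C ≤ r := by
    refine Real.sSup_le ?_ hr0.le
    rintro r' ⟨Z, h1, h2, h3, h4, h5⟩
    obtain ⟨p, hp, hlt⟩ := hcon Z h1 h2 h3 h4
    exact (h5 p hp).trans hlt.le
  exact absurd hr (not_lt.2 h1)

/-- joining a far pair and its reversal -/
theorem link {J : Set E} (hJ : IsSCC J) {r : ℝ} {Z : Set (E × E)} (hZ : IsPreconnected Z)
    (hin : ∀ p ∈ Z, p.1 ∈ inside J ∧ p.2 ∈ inside J) (hd : ∀ p ∈ Z, r ≤ dist p.1 p.2) {x y1 y2 : E}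
    (h1 : (x, y1) ∈ Z) (h2 : (y2, x) ∈ Z) (h : FarLinked J r (x, y1) (x, y2)) : r ≤ essSpan J := by
  obtain ⟨M, hM, hM1, hM2, hMf⟩ := h
  have hU : IsPreconnected (Z ∪ M) := IsPreconnected.union (x, y1) h1 hM1 hZ hM
  refine exchange hJ hU ?_ (Or.inr hM2) (Or.inl h2) ?_
  · rintro p (hp | hp)
    · exact hin p hp
    · exact ⟨(hMf p hp).1, (hMf p hp).2.1⟩
  · rintro p (hp | hp)
    · exact hd p hp
    · exact (hMf p hp).2.2

/-- the far point criterion -/
theorem far_point {J C : Set E} (hJ : IsSCC J) (hC : IsSCC C) (hin : C ⊆ inside J)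
    (h : ∀ r : ℝ, 0 < r → r < span C → ∃ x ∈ C, ∀ y ∈ C, ∀ y' ∈ C, r ≤ dist x y → r ≤ dist x y' →
      FarLinked J r (x, y) (x, y')) : span C ≤ essSpan J := by
  by_contra hcon
  rw [not_le] at hcon
  obtain ⟨r, hr1, hr2⟩ := exists_between hcon
  have hr0 : 0 < r := (ess_nonneg J).trans_lt hr1
  obtain ⟨Z, hZ, hc, hk, hp, hd⟩ := exists_of_lt_span hr0 hr2
  have hfull : Prod.fst '' Z = C := full_proj hC hZ hc hk hp (fun p hp h => by
    have := hd p hp
    rw [h, dist_self] at this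
    linarith)
  obtain ⟨x, hxC, hx⟩ := h r hr0 hr2
  have hx1 : x ∈ Prod.fst '' Z := by
    rw [hfull]
    exact hxC
  have hx2 : x ∈ Prod.snd '' Z := by
    rw [← hp]
    exact hx1
  obtain ⟨⟨a, y1⟩, hp1, hpx1⟩ := hx1
  obtain ⟨⟨y2, b⟩, hp2, hpx2⟩ := hx2
  have ea : a = x := hpx1
  have eb : b = x := hpx2
  rw [ea] at hp1
  rw [eb] at hp2
  have hy1 : y1 ∈ C := (hZ hp1).2
  have hy2 : y2 ∈ C := (hZ hp2).1
  have hd1 : r ≤ dist x y1 := hd (x, y1) hp1
  have hd2' : r ≤ dist y2 x := hd (y2, x) hp2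
  have hd2 : r ≤ dist x y2 := by
    rw [dist_comm]
    exact hd2'
  have hl : FarLinked J r (x, y1) (x, y2) := hx y1 hy1 y2 hy2 hd1 hd2
  have hfin : r ≤ essSpan J :=
    link hJ hc.isPreconnected (fun p hp => ⟨hin (hZ hp).1, hin (hZ hp).2⟩) hd hp1 hp2 hl
  exact absurd hr1 (not_lt.2 hfin)

/-- connected far sets link all far pairs -/
theorem farLinked_of_preconnected {J C : Set E} (hin : C ⊆ inside J) {x : E} (hx : x ∈ C) {r : ℝ}
    (h : IsPreconnected {y | y ∈ C ∧ r ≤ dist x y}) {y y' : E} (hy : y ∈ C) (hy' : y' ∈ C)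
    (h1 : r ≤ dist x y) (h2 : r ≤ dist x y') : FarLinked J r (x, y) (x, y') := by
  refine ⟨(fun y => (x, y)) '' {y | y ∈ C ∧ r ≤ dist x y}, h.image _ (by fun_prop),
    ⟨y, ⟨hy, h1⟩, rfl⟩, ⟨y', ⟨hy', h2⟩, rfl⟩, ?_⟩
  rintro _ ⟨z, ⟨hz, hzr⟩, rfl⟩
  exact ⟨hin hx, hin hz, hzr⟩

end Pool.Agent.H512SP.Nest
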